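import Mathlib

set_option autoImplicit false
open MeasureTheory Set
open scoped Pointwise ENNReal

namespace Pool.Agent.Helper438.CH

variable {G X : Type} [Group G] [MulAction G X]

/-- the countable subgroup generated by a sequence -/
noncomputable def H (c : ℕ → G) : Subgroup G := (FreeGroup.lift c).range

instance (c : ℕ → G) : Countable (H c) := by
  have : Function.Surjective (FreeGroup.lift c).rangeRestrict := MonoidHom.rangeRestrict_surjective _
  exact this.countable

lemma mem_H (c : ℕ → G) (n : ℕ) : c n ∈ H c := ⟨FreeGroup.of n, by simp⟩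

lemma H_le (c : ℕ → G) (K : Subgroup G) (h : ∀ n, c n ∈ K) : H c ≤ K := by
  rintro _ ⟨w, rfl⟩
  have h2 : ∀ w : FreeGroup ℕ, FreeGroup.lift c w ∈ K := by
    intro w
    refine FreeGroup.induction_on w ?_ ?_ ?_ ?_
    · simp [K.one_mem]
    · intro n; simpa using h n
    · intro n _; simpa using K.inv_mem (h n)
    · intro x y hx hy; rw [map_mul]; exact K.mul_mem hx hy
  exact h2 w

/-- the orbit -/
def O (c : ℕ → G) (x : X) : Set X := MulAction.orbit (H c) x

lemma mem_O_self (c : ℕ → G) (x : X) : x ∈ O c x := MulAction.mem_orbit_self x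

lemma O_countable (c : ℕ → G) (x : X) : (O c x).Countable := by
  unfold O MulAction.orbit
  exact countable_range _

lemma O_eq_of_mem (c : ℕ → G) {x y : X} (h : y ∈ O c x) : O c y = O c x :=
  MulAction.orbit_eq_iff.mpr h

lemma smul_mem_O (c : ℕ → G) (x : X) {y : X} (hy : y ∈ O c x) {g : G} (hg : g ∈ H c) :
    g • y ∈ O c x := by
  obtain ⟨⟨k, hk⟩, rfl⟩ := hy
  exact ⟨⟨g * k, (H c).mul_mem hg hk⟩, by simp [Subgroup.smul_def, mul_smul]⟩

lemma O_mono (c c' : ℕ → G) (h : H c ≤ H c') (x : X) : O c x ⊆ O c' x := by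
  rintro _ ⟨⟨k, hk⟩, rfl⟩
  exact ⟨⟨k, h hk⟩, rfl⟩

/-- the packing property -/
def Packs (A : Set X) : Prop :=
  ∃ B : ℕ → Set X, Pairwise (Function.onFun Disjoint B) ∧
            ∀ n, ∃ (P : ℕ → Set X) (g : ℕ → G),
              Pairwise (Function.onFun Disjoint P) ∧ (⋃ i, P i) = A ∧
              Pairwise (Function.onFun Disjoint (fun i => g i • P i)) ∧
              (⋃ i, g i • P i) = B n

/-- an enumeration of an infinite countable set -/
lemma exists_enum (S : Set X) (h1 : S.Countable) (h2 : S.Infinite) :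
    ∃ e : ℕ → X, Function.Injective e ∧ range e = S := by
  have : Countable S := h1.to_subtype
  have : Infinite S := h2.to_subtype
  obtain ⟨f⟩ : Nonempty (ℕ ≃ S) := by
    have := (nonempty_denumerable S)
    obtain ⟨d⟩ := this
    exact ⟨(Denumerable.eqv S).symm⟩
  refine ⟨fun n => (f n : X), ?_, ?_⟩
  · intro a b hab
    exact f.injective (Subtype.ext hab)
  · ext y
    constructor
    · rintro ⟨n, rfl⟩; exact (f n).2
    · intro hy
      exact ⟨f.symm ⟨y, hy⟩, by simp⟩

/-- the points with infinite orbit have measure zero. -/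
lemma infinite_null [Nonempty X] (μ : Set X → ℝ≥0∞)
    (hadd : ∀ s : ℕ → Set X, Pairwise (Function.onFun Disjoint s) → μ (⋃ n, s n) = ∑' n, μ (s n))
    (hpack : ∀ A : Set X, Packs (G := G) A → μ A = 0) (c : ℕ → G) :
    μ {x | (O c x).Infinite} = 0 := by
  classical
  have hE : ∀ S : Set X, ∃ e : ℕ → X, (S.Countable ∧ S.Infinite) →
      (Function.Injective e ∧ range e = S) := by
    intro S
    by_cases h : S.Countable ∧ S.Infinite
    · obtain ⟨e, he⟩ := exists_enum S h.1 h.2
      exact ⟨e, fun _ => he⟩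
    · exact ⟨fun _ => Classical.arbitrary X, fun h' => absurd h' h⟩
  choose E hE using hE
  obtain ⟨en, hen⟩ := exists_surjective_nat (H c)
  let A : ℕ → Set X := fun n => {x | (O c x).Infinite ∧ E (O c x) n = x}
  have hEx : ∀ x, (O c x).Infinite → Function.Injective (E (O c x)) ∧ range (E (O c x)) = O c x :=
    fun x hx => hE _ ⟨O_countable c x, hx⟩
  have hA_disj : Pairwise (Function.onFun Disjoint A) := by
    intro m n hmn
    rw [Function.onFun, Set.disjoint_left]
    rintro x ⟨h1, h2⟩ ⟨_, h3⟩
    exact hmn ((hEx x h1).1 (h2.trans h3.symm))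
  have hA_union : {x | (O c x).Infinite} = ⋃ n, A n := by
    ext x
    simp only [mem_ofPred_eq, mem_iUnion]
    constructor
    · intro hx
      have h1 : x ∈ range (E (O c x)) := by rw [(hEx x hx).2]; exact mem_O_self c x
      obtain ⟨n, hn⟩ := h1
      exact ⟨n, hx, hn⟩
    · rintro ⟨n, hx, _⟩; exact hx
  have hA_pack : ∀ n, Packs (G := G) (A n) := by
    intro n
    refine ⟨A, hA_disj, ?_⟩
    intro k
    -- target point
    have hex : ∀ x ∈ A n, ∃ i, (en i : G) • x = E (O c x) k := by
      intro x hx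
      have h1 : E (O c x) k ∈ O c x := by
        have h0 := mem_range_self (f := E (O c x)) k
        rwa [(hEx x hx.1).2] at h0
      obtain ⟨g, hg⟩ := h1
      obtain ⟨i, hi⟩ := hen g
      exact ⟨i, by rw [hi]; exact hg⟩
    let P : ℕ → Set X := fun i => {x | x ∈ A n ∧ (en i : G) • x = E (O c x) k ∧
      ∀ j < i, (en j : G) • x ≠ E (O c x) k}
    refine ⟨P, fun i => (en i : G), ?_, ?_, ?_, ?_⟩
    · intro i j hij
      rw [Function.onFun, Set.disjoint_left]
      rintro x ⟨_, h1, h2⟩ ⟨_, h3, h4⟩
      rcases lt_or_gt_of_ne hij with h | h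
      · exact h4 i h h1
      · exact h2 j h h3
    · ext x
      simp only [mem_iUnion]
      constructor
      · rintro ⟨i, hx, _⟩; exact hx
      · intro hx
        exact ⟨Nat.find (hex x hx), hx, Nat.find_spec (hex x hx), fun j hj => Nat.find_min (hex x hx) hj⟩
    · intro i j hij
      rw [Function.onFun, Set.disjoint_left]
      rintro _ ⟨x, ⟨hxA, h1, h2⟩, rfl⟩ ⟨y, ⟨hyA, h3, h4⟩, hxy⟩
      have hxy : (en j : G) • y = (en i : G) • x := hxy
      have o1 : O c ((en i : G) • x) = O c x :=
        O_eq_of_mem c (smul_mem_O c x (mem_O_self c x) (en i).2)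
      have o2 : O c ((en j : G) • y) = O c y :=
        O_eq_of_mem c (smul_mem_O c y (mem_O_self c y) (en j).2)
      have o3 : O c x = O c y := by rw [← o1, ← o2, hxy]
      have hxeq : x = y := by rw [← hxA.2, ← hyA.2, o3]
      subst hxeq
      rcases lt_or_gt_of_ne hij with h | h
      · exact h4 i h h1
      · exact h2 j h h3
    · ext y
      simp only [mem_iUnion]
      constructor
      · rintro ⟨i, x, ⟨hxA, h1, h2⟩, rfl⟩
        show (en i : G) • x ∈ A k
        have o1 : O c ((en i : G) • x) = O c x :=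
          O_eq_of_mem c (smul_mem_O c x (mem_O_self c x) (en i).2)
        refine ⟨?_, ?_⟩
        · rw [o1]; exact hxA.1
        · rw [o1]; exact h1.symm
      · intro hy
        -- the point with index n
        obtain ⟨x, hx⟩ : ∃ x, x = E (O c y) n := ⟨_, rfl⟩
        have hxO : x ∈ O c y := by
          have h0 := mem_range_self (f := E (O c y)) n
          rw [(hEx y hy.1).2] at h0
          rw [hx]; exact h0
        have o1 : O c x = O c y := O_eq_of_mem c hxO
        have hxA : x ∈ A n := ⟨by rw [o1]; exact hy.1, by rw [o1]; exact hx.symm⟩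
        refine ⟨Nat.find (hex x hxA), x, ⟨hxA, Nat.find_spec (hex x hxA),
          fun j hj => Nat.find_min (hex x hxA) hj⟩, ?_⟩
        show (en (Nat.find (hex x hxA)) : G) • x = y
        rw [Nat.find_spec (hex x hxA), o1]
        exact hy.2
  rw [hA_union, hadd A hA_disj]
  simp [fun n => hpack (A n) (hA_pack n)]

end Pool.Agent.Helper438.CH
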