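import Pool.Agent.Helper438.CH1

set_option autoImplicit false
open MeasureTheory Set
open scoped Pointwise ENNReal

namespace Pool.Agent.Helper438.CH

variable {G X : Type} [Group G] [MulAction G X]

theorem main (μ : Set X → ℝ≥0∞) (hμ1 : μ univ = 1)
    (hadd : ∀ s : ℕ → Set X, Pairwise (Function.onFun Disjoint s) → μ (⋃ n, s n) = ∑' n, μ (s n))
    (hpack : ∀ A : Set X, Packs (G := G) A → μ A = 0) :
    ∃ ν : Set X → ℝ≥0∞, ν univ = 1 ∧
        (∀ s : ℕ → Set X, Pairwise (Function.onFun Disjoint s) →
            ν (⋃ n, s n) = ∑' n, ν (s n)) ∧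
        ∀ (g : G) (A : Set X), ν (g • A) = ν A := by
  classical
  -- the empty set
  have h0 : μ ∅ = 0 := by
    have h1 := hadd (fun n => if n = 0 then univ else ∅) (by
      intro i j hij
      rw [Function.onFun, Set.disjoint_left]
      intro x hx hx'
      by_cases hi : i = 0
      · by_cases hj : j = 0
        · exact hij (hi.trans hj.symm)
        · simp [hj] at hx'
      · simp [hi] at hx)
    have h2 : (⋃ n : ℕ, (if n = 0 then (univ : Set X) else ∅)) = univ := by
      apply eq_univ_of_forall
      intro x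
      simp only [mem_iUnion]
      exact ⟨0, by simp⟩
    rw [h2, hμ1, tsum_eq_zero_add' ENNReal.summable] at h1
    simp only [if_true, Nat.add_eq_zero_iff, one_ne_zero, and_false, if_false, hμ1] at h1
    by_contra hne
    have h3 : ∑' _ : ℕ, μ ∅ = ∞ := ENNReal.tsum_const_eq_top_of_ne_zero hne
    rw [h3] at h1
    simp at h1
  have hne : Nonempty X := by
    by_contra hcon
    rw [not_nonempty_iff] at hcon
    have : (univ : Set X) = ∅ := Set.univ_eq_empty_iff.mpr hcon
    rw [this, h0] at hμ1
    exact zero_ne_one hμ1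
  let _inst : MeasurableSpace X := ⊤
  have hms : ∀ s : Set X, MeasurableSet s := fun s => trivial
  have hmf : ∀ f : X → ℝ≥0∞, Measurable f := fun f => measurable_from_top
  let m : Measure X := Measure.ofMeasurable (fun s _ => μ s) h0 (fun f _ hd => hadd f hd)
  have hm : ∀ s, m s = μ s := fun s => Measure.ofMeasurable_apply s (hms s)
  have hmprob : IsProbabilityMeasure m := ⟨by rw [hm, hμ1]⟩
  -- weights
  let w : (ℕ → G) → X → ℝ≥0∞ := fun c x => (Measure.count (O c x))⁻¹
  have hw1 : ∀ c x, w c x ≤ 1 := by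
    intro c x
    simp only [w]
    apply ENNReal.inv_le_one.mpr
    rw [Measure.count_apply (hms _)]
    have h1 : 1 ≤ (O c x).encard := by
      rw [Set.one_le_encard_iff_nonempty]; exact ⟨x, mem_O_self c x⟩
    exact_mod_cast h1
  let φ : (ℕ → G) → ℝ≥0∞ := fun c => ∫⁻ x, w c x ∂m
  have hφ1 : ∀ c, φ c ≤ 1 := by
    intro c
    calc φ c ≤ ∫⁻ _, 1 ∂m := lintegral_mono (hw1 c)
      _ = 1 := by simp
  have hw_mono : ∀ c c', H c ≤ H c' → ∀ x, w c' x ≤ w c x := by
    intro c c' h x
    simp only [w]
    apply ENNReal.inv_le_inv.mpr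
    exact measure_mono (O_mono c c' h x)
  have hφ_mono : ∀ c c', H c ≤ H c' → φ c' ≤ φ c := fun c c' h => lintegral_mono (hw_mono c c' h)
  -- minimiser
  obtain ⟨c, hc⟩ : ∃ c, ∀ c', φ c ≤ φ c' := by
    set s := ⨅ c, φ c with hs
    have hs_top : s ≠ ∞ := by
      have : s ≤ 1 := (iInf_le _ (fun _ => 1)).trans (hφ1 _)
      exact ne_top_of_le_ne_top ENNReal.one_ne_top this
    have hex : ∀ n : ℕ, ∃ c, φ c < s + (n + 1 : ℝ≥0∞)⁻¹ := by
      intro n
      have : s < s + (n + 1 : ℝ≥0∞)⁻¹ := by
        apply ENNReal.lt_add_right hs_top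
        apply ENNReal.inv_ne_zero.mpr
        exact ENNReal.add_ne_top.mpr ⟨ENNReal.natCast_ne_top n, ENNReal.one_ne_top⟩
      rw [hs] at this
      exact iInf_lt_iff.mp this
    choose cs hcs using hex
    refine ⟨fun k => cs (Nat.unpair k).1 (Nat.unpair k).2, ?_⟩
    have hle : ∀ n, H (cs n) ≤ H (fun k => cs (Nat.unpair k).1 (Nat.unpair k).2) := by
      intro n
      apply H_le
      intro j
      have := mem_H (fun k => cs (Nat.unpair k).1 (Nat.unpair k).2) (Nat.pair n j)
      simpa using this
    have h1 : φ (fun k => cs (Nat.unpair k).1 (Nat.unpair k).2) ≤ s := by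
      apply ENNReal.le_of_forall_pos_le_add
      intro ε hε _
      obtain ⟨n, hn⟩ := ENNReal.exists_inv_nat_lt (a := (ε : ℝ≥0∞)) (by exact_mod_cast hε.ne')
      calc _ ≤ φ (cs n) := hφ_mono _ _ (hle n)
        _ ≤ s + (n + 1 : ℝ≥0∞)⁻¹ := (hcs n).le
        _ ≤ s + (n : ℝ≥0∞)⁻¹ := by gcongr; exact le_self_add
        _ ≤ s + ε := by gcongr
    intro c'
    exact h1.trans (iInf_le _ c')
  -- almost every orbit is finite
  have hfin : ∀ c : ℕ → G, ∀ᵐ x ∂m, (O c x).Finite := by
    intro c
    rw [ae_iff, hm]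
    exact infinite_null μ hadd hpack c
  -- stability
  have hstab : ∀ g : G, ∀ᵐ x ∂m, g • O c x = O c x := by
    intro g
    let c' : ℕ → G := fun n => if n = 0 then g else c (n - 1)
    have hcc' : H c ≤ H c' := by
      apply H_le
      intro n
      have := mem_H c' (n + 1)
      simpa [c'] using this
    have hg : g ∈ H c' := by
      have := mem_H c' 0
      simpa [c'] using this
    have heq : w c' =ᵐ[m] w c := by
      apply ae_eq_of_ae_le_of_lintegral_le
      · exact Filter.Eventually.of_forall (hw_mono c c' hcc')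
      · exact ne_top_of_le_ne_top ENNReal.one_ne_top (hφ1 c')
      · exact (hmf _).aemeasurable
      · exact hc c'
    filter_upwards [heq, hfin c'] with x hx1 hx2
    have h2 : Measure.count (O c' x) = Measure.count (O c x) := by
      simp only [w] at hx1
      exact inv_inj.mp hx1
    rw [Measure.count_apply (hms _), Measure.count_apply (hms _)] at h2
    have h3 : (O c' x).encard = (O c x).encard := by exact_mod_cast h2
    have h4 : O c x = O c' x :=
      Set.Finite.eq_of_subset_of_encard_le (hx2.subset (O_mono c c' hcc' x)) (O_mono c c' hcc' x) h3.le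
    rw [h4]
    ext y
    rw [mem_smul_set_iff_inv_smul_mem]
    constructor
    · intro hy
      have := smul_mem_O c' x hy hg
      simpa using this
    · intro hy
      exact smul_mem_O c' x hy ((H c').inv_mem hg)
  -- the invariant measure
  let ν : Set X → ℝ≥0∞ := fun A => ∫⁻ x, Measure.count (A ∩ O c x) * w c x ∂m
  refine ⟨ν, ?_, ?_, ?_⟩
  · have : ∀ᵐ x ∂m, Measure.count (univ ∩ O c x) * w c x = 1 := by
      filter_upwards [hfin c] with x hx
      rw [univ_inter]
      apply ENNReal.mul_inv_cancel
      · rw [Measure.count_apply (hms _)]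
        have h1 : (O c x).encard ≠ 0 := by
          rw [Set.encard_ne_zero]; exact ⟨x, mem_O_self c x⟩
        exact_mod_cast h1
      · rw [Measure.count_apply (hms _)]
        have h1 : (O c x).encard ≠ ⊤ := by
          rw [Set.encard_ne_top_iff]; exact hx
        exact_mod_cast h1
    show ∫⁻ x, Measure.count (univ ∩ O c x) * w c x ∂m = 1
    rw [lintegral_congr_ae this]
    simp
  · intro s hs
    show ∫⁻ x, Measure.count ((⋃ n, s n) ∩ O c x) * w c x ∂m = ∑' n, ∫⁻ x, Measure.count (s n ∩ O c x) * w c x ∂m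
    rw [← lintegral_tsum (fun n => (hmf _).aemeasurable)]
    apply lintegral_congr
    intro x
    rw [iUnion_inter, measure_iUnion]
    · rw [ENNReal.tsum_mul_right]
    · intro i j hij
      exact (hs hij).mono inter_subset_left inter_subset_left
    · intro i; exact hms _
  · intro g A
    show ∫⁻ x, Measure.count ((g • A) ∩ O c x) * w c x ∂m = ∫⁻ x, Measure.count (A ∩ O c x) * w c x ∂m
    apply lintegral_congr_ae
    filter_upwards [hstab g] with x hx
    congr 1
    have : (g • A) ∩ O c x = g • (A ∩ O c x) := by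
      rw [Set.smul_set_inter, hx]
    rw [this, Measure.count_apply (hms _), Measure.count_apply (hms _), Set.encard_smul_set]

end Pool.Agent.Helper438.CH
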