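import Mathlib

set_option autoImplicit false
open MeasureTheory Set ProbabilityTheory
open scoped ENNReal NNReal

namespace Pool.Agent.Helper438.CM

/-- rotation invariance: `u ↦ fract (c - u)` preserves the uniform law on `(0,1]`. -/
lemma lintegral_fract (c : ℝ) (F : ℝ → ℝ≥0∞) :
    ∫⁻ u in Ioc (0:ℝ) 1, F (Int.fract (c - u)) = ∫⁻ s in Ioc (0:ℝ) 1, F s := by
  have hP : Function.Periodic (fun x : ℝ => F (Int.fract x)) 1 := by
    intro x; simp
  have h1 := UnitAddCircle.lintegral_preimage 0 (fun b => hP.lift ((c : UnitAddCircle) - b))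
  have h2 := UnitAddCircle.lintegral_preimage 0 (fun b => hP.lift b)
  have h3 : ∫⁻ b : UnitAddCircle, hP.lift ((c : UnitAddCircle) - b) = ∫⁻ b : UnitAddCircle, hP.lift b :=
    lintegral_sub_left_eq_self (μ := (volume : Measure UnitAddCircle)) (fun b => hP.lift b) (c : UnitAddCircle)
  rw [h3, ← h2] at h1
  simp only [zero_add] at h1
  have h4 : ∀ u : ℝ, hP.lift ((c : UnitAddCircle) - (u : UnitAddCircle)) = F (Int.fract (c - u)) := by
    intro u
    rw [← AddCircle.coe_sub]
    exact hP.lift_coe _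
  have h5 : ∀ u : ℝ, hP.lift (u : UnitAddCircle) = F (Int.fract u) := fun u => hP.lift_coe _
  simp only [h4, h5] at h1
  rw [h1]
  apply lintegral_congr_ae
  have : ∀ᵐ x : ℝ ∂(volume.restrict (Ioc (0:ℝ) 1)), x ≠ 1 := by
    apply ae_restrict_of_ae
    simp [ae_iff]
  filter_upwards [this, ae_restrict_mem measurableSet_Ioc] with x hx1 hx2
  rw [Int.fract_eq_self.mpr ⟨hx2.1.le, lt_of_le_of_ne hx2.2 hx1⟩]

end Pool.Agent.Helper438.CM
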