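import Mathlib

set_option autoImplicit false
open MeasureTheory Set ProbabilityTheory
open scoped ENNReal NNReal

namespace Pool.Agent.Helper438.CM

/-- existence of a quantile function for a law on a bounded interval. -/
lemma exists_quantile (R : Measure ℝ) [IsProbabilityMeasure R] (a b : ℝ) (hab : R (Icc a b)ᶜ = 0) :
    ∃ q : ℝ → ℝ, Monotone q ∧ (∀ t, q t ∈ Icc a b) ∧
      (volume.restrict (Ioc (0:ℝ) 1)).map q = R := by
  have hR1 : R (Icc a b) = 1 := by
    rw [← prob_compl_eq_zero_iff measurableSet_Icc]; exact hab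
  have hle : a ≤ b := by
    by_contra h
    rw [Icc_eq_empty h] at hR1
    simp at hR1
  set F : ℝ → ℝ := fun x => cdf R x with hF
  have hFb : F b = 1 := by
    rw [hF]; simp only
    rw [cdf_eq_real, measureReal_def]
    have : R (Iic b) = 1 := by
      apply le_antisymm prob_le_one
      rw [← hR1]
      exact measure_mono (fun x hx => hx.2)
    simp [this]
  have hFmono : Monotone F := monotone_cdf R
  let S : ℝ → Set ℝ := fun t => {x | x ∈ Icc a b ∧ min t 1 ≤ F x}
  have hSne : ∀ t, b ∈ S t := fun t => ⟨⟨hle, le_rfl⟩, by rw [hFb]; exact min_le_right _ _⟩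
  have hSbdd : ∀ t, BddBelow (S t) := fun t => ⟨a, fun x hx => hx.1.1⟩
  let q : ℝ → ℝ := fun t => sInf (S t)
  have hqa : ∀ t, a ≤ q t := fun t => le_csInf ⟨b, hSne t⟩ (fun x hx => hx.1.1)
  have hqb : ∀ t, q t ≤ b := fun t => csInf_le (hSbdd t) (hSne t)
  have hmono : Monotone q := by
    intro t t' htt'
    apply csInf_le_csInf (hSbdd t) ⟨b, hSne t'⟩
    intro x hx
    exact ⟨hx.1, le_trans (min_le_min_right 1 htt') hx.2⟩
  refine ⟨q, hmono, fun t => ⟨hqa t, hqb t⟩, ?_⟩
  have hattain : ∀ t, t ≤ 1 → t ≤ F (q t) := by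
    intro t ht
    have h1 : F (q t) = ⨅ r : Ioi (q t), F r := ((cdf R).iInf_Ioi_eq (q t)).symm
    rw [h1]
    have : Nonempty (Ioi (q t)) := ⟨⟨q t + 1, by simp⟩⟩
    apply le_ciInf
    rintro ⟨r, hr⟩
    obtain ⟨x, hx, hxr⟩ := exists_lt_of_csInf_lt ⟨b, hSne t⟩ (show sInf (S t) < r from hr)
    have := hx.2
    rw [min_eq_left ht] at this
    exact this.trans (hFmono hxr.le)
  have : IsProbabilityMeasure (volume.restrict (Ioc (0:ℝ) 1)) := ⟨by simp⟩
  have : IsProbabilityMeasure ((volume.restrict (Ioc (0:ℝ) 1)).map q) :=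
    Measure.isProbabilityMeasure_map hmono.measurable.aemeasurable
  apply Measure.ext_of_Iic
  intro x
  rw [Measure.map_apply hmono.measurable measurableSet_Iic,
    Measure.restrict_apply (hmono.measurable measurableSet_Iic), ← ofReal_cdf R x]
  have hset : q ⁻¹' Iic x ∩ Ioc (0:ℝ) 1 = Ioc 0 (F x) := by
    ext t
    simp only [mem_inter_iff, mem_preimage, mem_Iic, mem_Ioc]
    constructor
    · rintro ⟨h1, h2, h3⟩
      exact ⟨h2, (hattain t h3).trans (hFmono h1)⟩
    · rintro ⟨h1, h2⟩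
      have h3 : t ≤ 1 := h2.trans (cdf_le_one R x)
      refine ⟨?_, h1, h3⟩
      by_cases hxb : b ≤ x
      · exact (hqb t).trans hxb
      push Not at hxb
      by_cases hax : a ≤ x
      · apply csInf_le (hSbdd t)
        exact ⟨⟨hax, hxb.le⟩, by rw [min_eq_left h3]; exact h2⟩
      · exfalso
        push Not at hax
        have : F x = 0 := by
          rw [hF]; simp only
          rw [cdf_eq_real, measureReal_def]
          have : R (Iic x) = 0 := by
            apply measure_mono_null _ hab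
            intro y hy hy'
            exact absurd (hy'.1.trans hy) (not_le.mpr hax)
          simp [this]
        rw [this] at h2
        linarith
  rw [hset, Real.volume_Ioc, sub_zero]

/-- stratification of the uniform law. -/
lemma sum_map_strata (k : ℕ) (hk : 0 < k) :
    ∑ i : Fin k, (volume.restrict (Ioc (0:ℝ) 1)).map (fun v : ℝ => (v + ((i:ℕ):ℝ)) / (k:ℝ)) =
      (k : ℝ≥0∞) • volume.restrict (Ioc (0:ℝ) 1) := by
  have hk' : (0:ℝ) < k := by exact_mod_cast hk
  have hkne : (k:ℝ) ≠ 0 := hk'.ne'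
  have key : ∀ i : ℕ, (volume.restrict (Ioc (0:ℝ) 1)).map (fun v : ℝ => (v + (i:ℝ)) / (k:ℝ)) =
      (k : ℝ≥0∞) • volume.restrict (Ioc ((i:ℝ)/k) (((i:ℝ)+1)/k)) := by
    intro i
    have hmeas : Measurable (fun v : ℝ => (v + (i:ℝ)) / (k:ℝ)) := by fun_prop
    have hpre : (fun v : ℝ => (v + (i:ℝ)) / (k:ℝ)) ⁻¹' (Ioc ((i:ℝ)/k) (((i:ℝ)+1)/k)) = Ioc 0 1 := by
      ext v
      simp only [mem_preimage, mem_Ioc]
      rw [div_lt_div_iff_of_pos_right hk', div_le_div_iff_of_pos_right hk']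
      constructor <;> rintro ⟨h1, h2⟩ <;> constructor <;> linarith
    have hvol : (volume : Measure ℝ).map (fun v : ℝ => (v + (i:ℝ)) / (k:ℝ)) = (k : ℝ≥0∞) • volume := by
      have h1 : (fun v : ℝ => (v + (i:ℝ)) / (k:ℝ)) = (fun x => (k:ℝ)⁻¹ * x) ∘ (fun v => v + i) := by
        funext v; simp [div_eq_inv_mul]
      rw [h1, ← Measure.map_map (by fun_prop) (by fun_prop), map_add_right_eq_self,
        Real.map_volume_mul_left (inv_ne_zero hkne)]
      simp
    rw [← hpre, ← Measure.restrict_map hmeas measurableSet_Ioc, hvol, Measure.restrict_smul]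
  have h2 : ∀ m : ℕ, m ≤ k → ∑ i ∈ Finset.range m, volume.restrict (Ioc ((i:ℝ)/k) (((i:ℝ)+1)/k)) =
      volume.restrict (Ioc (0:ℝ) ((m:ℝ)/k)) := by
    intro m
    induction m with
    | zero => intro _; simp
    | succ m ih =>
      intro hm
      rw [Finset.sum_range_succ, ih (by omega), ← Measure.restrict_union _ measurableSet_Ioc,
        Ioc_union_Ioc_eq_Ioc (by positivity) (by gcongr; linarith)]
      · push_cast; rfl
      · rw [Set.disjoint_iff]
        rintro x ⟨h1, h2⟩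
        exact absurd h1.2 (not_le.mpr h2.1)
  calc ∑ i : Fin k, (volume.restrict (Ioc (0:ℝ) 1)).map (fun v : ℝ => (v + ((i:ℕ):ℝ)) / (k:ℝ))
      = ∑ i : Fin k, (k : ℝ≥0∞) • volume.restrict (Ioc (((i:ℕ):ℝ)/k) ((((i:ℕ):ℝ)+1)/k)) := by
        apply Finset.sum_congr rfl
        intro i _
        exact key i
    _ = (k : ℝ≥0∞) • ∑ i ∈ Finset.range k, volume.restrict (Ioc ((i:ℝ)/k) (((i:ℝ)+1)/k)) := by
        rw [← Finset.smul_sum, Finset.sum_range]
    _ = _ := by
        rw [h2 k le_rfl, div_self hkne]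

/-- systematic sampling. -/
lemma exists_systematic (R : Measure ℝ) [IsProbabilityMeasure R] (a b : ℝ)
    (hab : R (Icc a b)ᶜ = 0) (k : ℕ) (hk : 0 < k) :
    ∃ X : ℝ → Fin k → ℝ, Measurable X ∧ (∀ v i, X v i ∈ Icc a b) ∧
      (∑ i : Fin k, (volume.restrict (Ioc (0:ℝ) 1)).map (fun v => X v i) = (k : ℝ≥0∞) • R) ∧
      ∀ v ∈ Ioc (0:ℝ) 1, ∀ v' ∈ Ioc (0:ℝ) 1, ∑ i, X v' i - ∑ i, X v i ≤ b - a := by
  obtain ⟨q, hq, hqI, hqR⟩ := exists_quantile R a b hab
  have hk' : (0:ℝ) < k := by exact_mod_cast hk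
  refine ⟨fun v i => q ((v + i) / k), ?_, fun v i => hqI _, ?_, ?_⟩
  · apply measurable_pi_lambda
    intro i
    exact hq.measurable.comp (by fun_prop)
  · have : ∀ i : Fin k, (volume.restrict (Ioc (0:ℝ) 1)).map (fun v : ℝ => q ((v + ((i:ℕ):ℝ)) / (k:ℝ))) =
        ((volume.restrict (Ioc (0:ℝ) 1)).map (fun v : ℝ => (v + ((i:ℕ):ℝ)) / (k:ℝ))).map q := by
      intro i
      rw [Measure.map_map hq.measurable (by fun_prop)]
      rfl
    simp only [this]
    rw [← hqR, ← Measure.mapₗ_apply_of_measurable hq.measurable]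
    simp only [← Measure.mapₗ_apply_of_measurable hq.measurable, ← map_sum]
    rw [sum_map_strata k hk]
    simp
  · intro v hv v' hv'
    rw [← Finset.sum_sub_distrib]
    have h1 : ∀ i : Fin k, q ((v' + i) / k) - q ((v + i) / k) ≤
        q ((((i:ℕ) + 1 : ℕ) : ℝ) / k) - q (((i:ℕ):ℝ) / k) := by
      intro i
      apply sub_le_sub
      · apply hq
        gcongr
        push_cast
        linarith [hv'.2]
      · apply hq
        gcongr
        linarith [hv.1]
    calc _ ≤ ∑ i : Fin k, (q ((((i:ℕ) + 1 : ℕ) : ℝ) / k) - q (((i:ℕ):ℝ) / k)) :=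
          Finset.sum_le_sum (fun i _ => h1 i)
      _ = q ((k:ℝ)/k) - q (((0:ℕ):ℝ)/k) := by
          rw [← Finset.sum_range (fun i => q (((i + 1 : ℕ) : ℝ) / k) - q ((i:ℝ) / k))]
          exact Finset.sum_range_sub (fun i : ℕ => q ((i:ℝ)/k)) k
      _ ≤ b - a := sub_le_sub (hqI _).2 (hqI _).1

end Pool.Agent.Helper438.CM
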