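import Mathlib

set_option autoImplicit false
open MeasureTheory Set ProbabilityTheory Filter Topology
open scoped ENNReal NNReal

namespace Pool.Agent.Helper438.CM

/-- there is a centre and a length such that `A ∩ (y - A)` is uniformly large. -/
lemma exists_interval_overlap (A : Set ℝ) (hA : MeasurableSet A) (hpos : volume A ≠ 0) :
    ∃ y0 l : ℝ, 0 < l ∧ ∀ y ∈ Icc y0 (y0 + l), ENNReal.ofReal l ≤
      volume {z | z ∈ A ∧ y - z ∈ A} := by
  have hne : NeZero (volume.restrict A) := ⟨by
    intro h
    rw [Measure.restrict_eq_zero] at h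
    exact hpos h⟩
  obtain ⟨x, hx⟩ := (Besicovitch.ae_tendsto_measure_inter_div volume A).exists
  have h1 : ∀ᶠ r in 𝓝[>] (0:ℝ), (7/8 : ℝ≥0∞) <
      volume (A ∩ Metric.closedBall x r) / volume (Metric.closedBall x r) := by
    apply hx.eventually_const_lt
    rw [ENNReal.div_lt_iff] <;> norm_num
  obtain ⟨r, hr, hr0⟩ := (h1.and self_mem_nhdsWithin).exists
  have hr0 : 0 < r := hr0
  rw [Real.volume_closedBall, ENNReal.lt_div_iff_mul_lt (by simp [hr0]) (by simp)] at hr
  -- bad set
  have hB : volume (Metric.closedBall x r \ A) ≤ ENNReal.ofReal (r/4) := by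
    have h2 : volume (Metric.closedBall x r) = volume (A ∩ Metric.closedBall x r) +
        volume (Metric.closedBall x r \ A) := by
      rw [inter_comm, measure_inter_add_sdiff _ hA]
    rw [Real.volume_closedBall] at h2
    have h3 : volume (A ∩ Metric.closedBall x r) ≠ ∞ := by
      apply ne_top_of_le_ne_top _ (measure_mono inter_subset_right)
      rw [Real.volume_closedBall]; exact ENNReal.ofReal_ne_top
    have h4 : volume (Metric.closedBall x r \ A) ≠ ∞ := by
      apply ne_top_of_le_ne_top _ (measure_mono sdiff_subset)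
      rw [Real.volume_closedBall]; exact ENNReal.ofReal_ne_top
    have h5 : (7/8 : ℝ≥0∞) * ENNReal.ofReal (2 * r) = ENNReal.ofReal (7/4 * r) := by
      have : (7/8 : ℝ≥0∞) = ENNReal.ofReal (7/8) := by
        rw [ENNReal.ofReal_div_of_pos (by norm_num)]; simp
      rw [this, ← ENNReal.ofReal_mul (by norm_num)]
      congr 1; ring
    rw [h5] at hr
    rw [← ENNReal.ofReal_toReal h3] at hr h2
    rw [← ENNReal.ofReal_toReal h4] at h2 ⊢
    rw [← ENNReal.ofReal_add ENNReal.toReal_nonneg ENNReal.toReal_nonneg] at h2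
    rw [ENNReal.ofReal_eq_ofReal_iff (by positivity) (by positivity)] at h2
    rw [ENNReal.ofReal_lt_ofReal_iff_of_nonneg (by positivity)] at hr
    apply ENNReal.ofReal_le_ofReal
    linarith
  refine ⟨2 * x, r/2, by positivity, ?_⟩
  intro y hy
  -- window
  set W := Icc (x - r/2) (x + r/2) with hW
  have hWvol : volume W = ENNReal.ofReal r := by
    rw [hW, Real.volume_Icc]; congr 1; ring
  have hsub : W ⊆ {z | z ∈ A ∧ y - z ∈ A} ∪ ((Metric.closedBall x r \ A) ∪
      (fun z => y - z) ⁻¹' (Metric.closedBall x r \ A)) := by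
    intro z hz
    have hz1 : z ∈ Metric.closedBall x r := by
      rw [Real.closedBall_eq_Icc]
      constructor <;> linarith [hz.1, hz.2]
    have hz2 : y - z ∈ Metric.closedBall x r := by
      rw [Real.closedBall_eq_Icc]
      constructor <;> linarith [hz.1, hz.2, hy.1, hy.2]
    by_cases h1 : z ∈ A
    · by_cases h2 : y - z ∈ A
      · left; exact ⟨h1, h2⟩
      · right; right; exact ⟨hz2, h2⟩
    · right; left; exact ⟨hz1, h1⟩
  have hpre : volume ((fun z => y - z) ⁻¹' (Metric.closedBall x r \ A)) =
      volume (Metric.closedBall x r \ A) := by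
    have := (Measure.measurePreserving_sub_left (volume : Measure ℝ) y)
    exact this.measure_preimage (Metric.isClosed_closedBall.measurableSet.diff hA).nullMeasurableSet
  have h6 : volume W ≤ volume {z | z ∈ A ∧ y - z ∈ A} + (volume (Metric.closedBall x r \ A) +
      volume ((fun z => y - z) ⁻¹' (Metric.closedBall x r \ A))) :=
    (measure_mono hsub).trans ((measure_union_le _ _).trans
      (add_le_add le_rfl (measure_union_le _ _)))
  rw [hpre, hWvol] at h6
  have h7 : ENNReal.ofReal r ≤ volume {z | z ∈ A ∧ y - z ∈ A} + ENNReal.ofReal (r/2) := by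
    refine h6.trans ?_
    refine add_le_add le_rfl ?_
    refine (add_le_add hB hB).trans ?_
    rw [← ENNReal.ofReal_add (by positivity) (by positivity)]
    apply ENNReal.ofReal_le_ofReal
    linarith
  have h8 : ENNReal.ofReal r = ENNReal.ofReal (r/2) + ENNReal.ofReal (r/2) := by
    rw [← ENNReal.ofReal_add (by positivity) (by positivity)]
    congr 1; ring
  rw [h8] at h7
  exact (ENNReal.add_le_add_iff_right (by simp)).mp h7

/-- the kernel of pairs -/
lemma exists_pair_kernel (A : Set ℝ) (hA : MeasurableSet A) (hpos : volume A ≠ 0)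
    (hfin : volume A ≠ ∞) :
    ∃ (y0 l : ℝ) (C : ℝ≥0) (κ : Kernel ℝ ℝ), 0 < l ∧ IsMarkovKernel κ ∧
      ∀ s ∈ Icc (0:ℝ) 1, κ s ≤ (C : ℝ≥0∞) • volume.restrict A ∧
        (κ s).map (fun z => y0 + l * s - z) ≤ (C : ℝ≥0∞) • volume.restrict A := by
  obtain ⟨y0, l, hl, hov⟩ := exists_interval_overlap A hA hpos
  let T : Set (ℝ × ℝ) := {p | p.2 ∈ A ∧ y0 + l * p.1 - p.2 ∈ A}
  have hT : MeasurableSet T := by
    apply MeasurableSet.inter
    · exact measurable_snd hA
    · exact (show Measurable (fun p : ℝ × ℝ => y0 + l * p.1 - p.2) by fun_prop) hA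
  let S : ℝ → Set ℝ := fun s => {z | z ∈ A ∧ y0 + l * s - z ∈ A}
  have hS : ∀ s, MeasurableSet (S s) := fun s => measurable_prodMk_left hT
  have hSfin : ∀ s, volume (S s) ≠ ∞ := fun s =>
    ne_top_of_le_ne_top hfin (measure_mono (fun z hz => hz.1))
  have hSlow : ∀ s ∈ Icc (0:ℝ) 1, ENNReal.ofReal l ≤ volume (S s) := by
    intro s hs
    apply hov
    constructor
    · nlinarith [hs.1]
    · nlinarith [hs.2]
  have hlpos : ENNReal.ofReal l ≠ 0 := by simp [hl]
  have hSmeas : ∀ B : Set ℝ, MeasurableSet B → Measurable (fun s => volume (S s ∩ B)) := by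
    intro B hB
    exact measurable_measure_prodMk_left (hT.inter (measurable_snd hB))
  let m : ℝ → Measure ℝ := fun s => if s ∈ Icc (0:ℝ) 1 then
    (volume (S s))⁻¹ • volume.restrict (S s) else Measure.dirac 0
  have hm : Measurable m := by
    apply Measurable.ite measurableSet_Icc _ measurable_const
    apply Measure.measurable_of_measurable_coe
    intro B hB
    simp only [Measure.smul_apply, smul_eq_mul, Measure.restrict_apply hB]
    apply Measurable.mul
    · have := hSmeas univ MeasurableSet.univ
      simp only [inter_univ] at this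
      exact this.inv
    · simp only [inter_comm B]
      exact hSmeas B hB
  let κ : Kernel ℝ ℝ := ⟨m, hm⟩
  have hκ : ∀ s ∈ Icc (0:ℝ) 1, κ s = (volume (S s))⁻¹ • volume.restrict (S s) := by
    intro s hs
    show m s = _
    simp only [m, if_pos hs]
  refine ⟨y0, l, Real.toNNReal l⁻¹, κ, hl, ⟨?_⟩, ?_⟩
  · intro s
    by_cases hs : s ∈ Icc (0:ℝ) 1
    · rw [hκ s hs]
      constructor
      simp only [Measure.smul_apply, smul_eq_mul, Measure.restrict_apply MeasurableSet.univ, univ_inter]
      apply ENNReal.inv_mul_cancel _ (hSfin s)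
      exact (lt_of_lt_of_le (pos_iff_ne_zero.mpr hlpos) (hSlow s hs)).ne'
    · have : κ s = Measure.dirac 0 := by
        show m s = _
        simp only [m, if_neg hs]
      rw [this]
      infer_instance
  · intro s hs
    have hbd : κ s ≤ ((Real.toNNReal l⁻¹ : ℝ≥0) : ℝ≥0∞) • volume.restrict A := by
      rw [hκ s hs]
      have h1 : (volume (S s))⁻¹ ≤ ((Real.toNNReal l⁻¹ : ℝ≥0) : ℝ≥0∞) := by
        have : ((Real.toNNReal l⁻¹ : ℝ≥0) : ℝ≥0∞) = (ENNReal.ofReal l)⁻¹ := by
          rw [← ENNReal.ofReal_inv_of_pos hl]; rfl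
        rw [this]
        exact ENNReal.inv_le_inv.mpr (hSlow s hs)
      have h2 : volume.restrict (S s) ≤ volume.restrict A :=
        Measure.restrict_mono (fun z hz => hz.1) le_rfl
      rw [Measure.le_iff]
      intro B hB
      simp only [Measure.smul_apply, smul_eq_mul]
      exact mul_le_mul' h1 (h2 B)
    refine ⟨hbd, ?_⟩
    have hmap : (κ s).map (fun z => y0 + l * s - z) = κ s := by
      rw [hκ s hs, Measure.map_smul]
      congr 1
      have hmp := (Measure.measurePreserving_sub_left (volume : Measure ℝ) (y0 + l * s))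
      have hpre : (fun z => y0 + l * s - z) ⁻¹' (S s) = S s := by
        ext z
        simp only [S, mem_preimage, mem_ofPred_eq, sub_sub_cancel]
        exact and_comm
      have := hmp.restrict_preimage (hS s)
      rw [hpre] at this
      exact this.map_eq
    rw [hmap]
    exact hbd

end Pool.Agent.Helper438.CM
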