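import Pool.Agent.Helper438.CM4

set_option autoImplicit false
open MeasureTheory Set ProbabilityTheory Filter Topology
open scoped ENNReal NNReal unitInterval

namespace Pool.Agent.Helper438.CM

/-- the probability space of the gadget -/
noncomputable abbrev PP : Measure ((ℝ × ℝ) × I) := (U.prod U).prod volume

/-- the gadget vector -/
noncomputable def G (h : ℕ) (y0 l : ℝ) (Q : ℝ → I → ℝ) (τ : ℝ → ℝ) (p : (ℝ × ℝ) × I) :
    (Fin (2 * h) ⊕ Bool) × Bool → ℝ
  | (i, false) => Q (sf h τ p.1 i) p.2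
  | (i, true) => y0 + l * sf h τ p.1 i - Q (sf h τ p.1 i) p.2

lemma measurable_G (h : ℕ) (y0 l : ℝ) (Q : ℝ → I → ℝ) (hQ : Measurable (Function.uncurry Q))
    (τ : ℝ → ℝ) (hτ : Measurable τ) (i : (Fin (2 * h) ⊕ Bool) × Bool) :
    Measurable (fun p => G h y0 l Q τ p i) := by
  obtain ⟨i, b⟩ := i
  have h1 := measurable_sf h τ hτ i
  have h2 : Measurable (fun p : (ℝ × ℝ) × I => Q (sf h τ p.1 i) p.2) :=
    hQ.comp ((h1.comp measurable_fst).prodMk measurable_snd)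
  cases b
  · simp only [G]; exact h2
  · simp only [G]
    exact ((h1.comp measurable_fst).const_mul l |>.const_add y0).sub h2

lemma sum_G (h : ℕ) (y0 l : ℝ) (Q : ℝ → I → ℝ) (τ : ℝ → ℝ) (p : (ℝ × ℝ) × I)
    (hp : p.1.2 ∈ Ioc (0:ℝ) 1) (h1 : 1 ≤ τ p.1.1) (h2 : τ p.1.1 ≤ 2 * h + 1) :
    ∑ i, G h y0 l Q τ p i = (2 * h + 2) * y0 + l * τ p.1.1 := by
  rw [Fintype.sum_prod_type]
  simp only [Fintype.sum_bool, G, sub_add_cancel]
  rw [Finset.sum_add_distrib, ← Finset.mul_sum, sum_sf h τ p.1 hp h1 h2]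
  simp

/-- conditional sum-law -/
noncomputable def Psi (y0 l : ℝ) (Q : ℝ → I → ℝ) (B : Set ℝ) (s : ℝ) : ℝ≥0∞ :=
  volume {w : I | y0 + l * s - Q s w ∈ B} + volume {w : I | Q s w ∈ B}

lemma measurable_Psi (y0 l : ℝ) (Q : ℝ → I → ℝ) (hQ : Measurable (Function.uncurry Q))
    (B : Set ℝ) (hB : MeasurableSet B) : Measurable (Psi y0 l Q B) := by
  unfold Psi
  apply Measurable.add
  · have : MeasurableSet {p : ℝ × I | y0 + l * p.1 - Q p.1 p.2 ∈ B} := by
      have hm : Measurable (fun p : ℝ × I => y0 + l * p.1 - Q p.1 p.2) := by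
        have : Measurable (fun p : ℝ × I => Q p.1 p.2) := hQ
        fun_prop
      exact hm hB
    exact measurable_measure_prodMk_left this
  · have : MeasurableSet {p : ℝ × I | Q p.1 p.2 ∈ B} := by
      have hm : Measurable (fun p : ℝ × I => Q p.1 p.2) := hQ
      exact hm hB
    exact measurable_measure_prodMk_left this

lemma sum_map_G (h : ℕ) (y0 l : ℝ) (Q : ℝ → I → ℝ) (hQ : Measurable (Function.uncurry Q))
    (τ : ℝ → ℝ) (hτ : Measurable τ)
    (h1 : ∀ v ∈ Ioc (0:ℝ) 1, 1 ≤ τ v) (h2 : ∀ v ∈ Ioc (0:ℝ) 1, τ v ≤ 2 * h + 1)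
    (hint : ∫ v in Ioc (0:ℝ) 1, τ v = h + 1) (B : Set ℝ) (hB : MeasurableSet B) :
    (∑ i, PP.map (fun p => G h y0 l Q τ p i)) B =
      ∫⁻ s, Psi y0 l Q B s ∂((2:ℝ≥0∞) • U + ((h : ℝ≥0∞) • Measure.dirac 1 + (h : ℝ≥0∞) • Measure.dirac 0)) := by
  rw [← sum_map_sf h τ hτ h1 h2 hint, lintegral_finsetSum_measure]
  rw [Measure.finsetSum_apply, Fintype.sum_prod_type]
  apply Finset.sum_congr rfl
  intro i _
  rw [Fintype.sum_bool, Measure.map_apply (measurable_G h y0 l Q hQ τ hτ _) hB,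
    Measure.map_apply (measurable_G h y0 l Q hQ τ hτ _) hB,
    lintegral_map (measurable_Psi y0 l Q hQ B hB) (measurable_sf h τ hτ i)]
  unfold Psi
  rw [Measure.prod_apply (measurable_G h y0 l Q hQ τ hτ _ hB),
    Measure.prod_apply (measurable_G h y0 l Q hQ τ hτ _ hB), ← lintegral_add_left]
  · rfl
  · exact measurable_measure_prodMk_left (measurable_G h y0 l Q hQ τ hτ _ hB)

/-- the gadget sum-law is bounded by a multiple of Lebesgue measure on `A`. -/
lemma sum_map_G_le (h : ℕ) (y0 l : ℝ) (Q : ℝ → I → ℝ) (hQ : Measurable (Function.uncurry Q))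
    (τ : ℝ → ℝ) (hτ : Measurable τ)
    (h1 : ∀ v ∈ Ioc (0:ℝ) 1, 1 ≤ τ v) (h2 : ∀ v ∈ Ioc (0:ℝ) 1, τ v ≤ 2 * h + 1)
    (hint : ∫ v in Ioc (0:ℝ) 1, τ v = h + 1) (A : Set ℝ) (C : ℝ≥0∞)
    (hC : ∀ s ∈ Icc (0:ℝ) 1, volume.map (Q s) ≤ C • volume.restrict A ∧
        volume.map (fun w => y0 + l * s - Q s w) ≤ C • volume.restrict A) :
    (∑ i, PP.map (fun p => G h y0 l Q τ p i)) ≤ ((2 * h + 2) * (2 * C)) • volume.restrict A := by
  rw [Measure.le_iff]
  intro B hB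
  rw [sum_map_G h y0 l Q hQ τ hτ h1 h2 hint B hB]
  have hQs : ∀ s, Measurable (Q s) := fun s => hQ.of_uncurry_left
  have hb : ∀ s ∈ Icc (0:ℝ) 1, Psi y0 l Q B s ≤ 2 * C * volume.restrict A B := by
    intro s hs
    have a1 := (hC s hs).1 B
    have a2 := (hC s hs).2 B
    rw [Measure.map_apply (hQs s) hB] at a1
    rw [Measure.map_apply ((hQs s).const_sub _) hB] at a2
    unfold Psi
    calc _ ≤ (C • volume.restrict A) B + (C • volume.restrict A) B := add_le_add a2 a1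
      _ = _ := by
        simp only [Measure.smul_apply, smul_eq_mul]; ring
  have hm : ∀ᵐ s ∂((2:ℝ≥0∞) • U + ((h : ℝ≥0∞) • Measure.dirac 1 + (h : ℝ≥0∞) • Measure.dirac 0)),
      s ∈ Icc (0:ℝ) 1 := by
    rw [ae_add_measure_iff, ae_add_measure_iff]
    refine ⟨?_, ?_, ?_⟩
    · apply Measure.ae_smul_measure
      filter_upwards [ae_restrict_mem measurableSet_Ioc] with v hv using ⟨hv.1.le, hv.2⟩
    · apply Measure.ae_smul_measure
      exact (ae_dirac_iff (p := fun x => x ∈ Icc (0:ℝ) 1) measurableSet_Icc).mpr (by simp)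
    · apply Measure.ae_smul_measure
      exact (ae_dirac_iff (p := fun x => x ∈ Icc (0:ℝ) 1) measurableSet_Icc).mpr (by simp)
  calc _ ≤ ∫⁻ s, (2 * C * volume.restrict A B) ∂((2:ℝ≥0∞) • U + ((h : ℝ≥0∞) • Measure.dirac 1 + (h : ℝ≥0∞) • Measure.dirac 0)) := by
        apply lintegral_mono_ae
        filter_upwards [hm] with s hs using hb s hs
    _ = _ := by
        rw [lintegral_const]
        simp only [Measure.add_apply, Measure.smul_apply, smul_eq_mul, measure_univ, mul_one]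
        ring

end Pool.Agent.Helper438.CM
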