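import Pool.Agent.Helper438.CM5
import Pool.Agent.Helper438.CM2
import Pool.Agent.Helper438.CM3

set_option autoImplicit false
open MeasureTheory Set ProbabilityTheory Filter Topology
open scoped ENNReal NNReal unitInterval

namespace Pool.Agent.Helper438.CM

/-- random cyclic relabelling of the coordinates. -/
lemma symmetrize {Ω ι : Type*} [MeasurableSpace Ω] [Fintype ι] (P : Measure Ω) [IsProbabilityMeasure P]
    (Y : Ω → ι → ℝ) (hY : Measurable Y) (n : ℕ) (hn : 0 < n) (hcard : Fintype.card ι = n)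
    (μ : Measure ℝ) (hsum : ∑ i, P.map (fun p => Y p i) = (n : ℝ≥0∞) • μ)
    (c : ℝ) (hc : ∀ᵐ p ∂P, ∑ i, Y p i = c) :
    ∃ ν : Measure (Fin n → ℝ), IsProbabilityMeasure ν ∧
      (∀ i : Fin n, ν.map (fun x => x i) = μ) ∧ ∃ c : ℝ, ∀ᵐ x ∂ν, ∑ i, x i = c := by
  have : NeZero n := ⟨hn.ne'⟩
  have hn0 : (n : ℝ≥0∞) ≠ 0 := by exact_mod_cast hn.ne'
  have hnt : (n : ℝ≥0∞) ≠ ∞ := ENNReal.natCast_ne_top n
  let e : Fin n ≃ ι := (finCongr hcard.symm).trans (Fintype.equivFin ι).symm
  let Z : Fin n → Ω → Fin n → ℝ := fun k p j => Y p (e (j + k))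
  have hZ : ∀ k, Measurable (Z k) := by
    intro k
    apply measurable_pi_lambda
    intro j
    exact (measurable_pi_apply _).comp hY
  refine ⟨(n : ℝ≥0∞)⁻¹ • ∑ k, P.map (Z k), ⟨?_⟩, ?_, c, ?_⟩
  · rw [Measure.smul_apply, Measure.finsetSum_apply]
    have : ∀ k, (P.map (Z k)) univ = 1 := by
      intro k
      rw [Measure.map_apply (hZ k) MeasurableSet.univ]
      simp
    simp only [this, Finset.sum_const, Finset.card_univ, Fintype.card_fin, nsmul_eq_mul, mul_one,
      smul_eq_mul]
    exact ENNReal.inv_mul_cancel hn0 hnt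
  · intro i
    have hev : Measurable (fun x : Fin n → ℝ => x i) := measurable_pi_apply i
    rw [Measure.map_smul, ← Measure.mapₗ_apply_of_measurable hev, map_sum]
    simp only [Measure.mapₗ_apply_of_measurable hev]
    have h1 : ∀ k, (P.map (Z k)).map (fun x => x i) = P.map (fun p => Y p (e (i + k))) := by
      intro k
      rw [Measure.map_map hev (hZ k)]
      rfl
    simp only [h1]
    have h2 : ∑ k : Fin n, P.map (fun p => Y p (e (i + k))) = ∑ j, P.map (fun p => Y p j) :=
      Fintype.sum_equiv ((Equiv.addLeft i).trans e) _ _ (fun k => rfl)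
    rw [h2, hsum, smul_smul, ENNReal.inv_mul_cancel hn0 hnt, one_smul]
  · apply Measure.ae_smul_measure
    rw [← Measure.sum_fintype, Measure.ae_sum_iff]
    intro k
    rw [ae_map_iff (hZ k).aemeasurable]
    · filter_upwards [hc] with p hp
      rw [← hp]
      exact Fintype.sum_equiv ((Equiv.addRight k).trans e) _ _ (fun j => rfl)
    · exact measurableSet_eq_fun (by fun_prop) measurable_const

/-- an absolutely continuous law dominates a multiple of Lebesgue measure on a set of positive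
measure. -/
lemma exists_dominated_set (μ : Measure ℝ) [IsProbabilityMeasure μ] (hac : μ ≪ volume) (a b : ℝ)
    (hab : μ (Icc a b)ᶜ = 0) :
    ∃ (A : Set ℝ) (δ : ℝ≥0∞), MeasurableSet A ∧ volume A ≠ 0 ∧ volume A ≠ ∞ ∧ δ ≠ 0 ∧
      δ • volume.restrict A ≤ μ := by
  set f := μ.rnDeriv volume with hf
  have hfm : Measurable f := Measure.measurable_rnDeriv μ volume
  have hμ : volume.withDensity f = μ := Measure.withDensity_rnDeriv_eq μ volume hac
  let A : ℕ → Set ℝ := fun k => {x | x ∈ Icc a b ∧ ((k:ℝ≥0∞) + 1)⁻¹ ≤ f x}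
  have hA : ∀ k, MeasurableSet (A k) := fun k =>
    measurableSet_Icc.inter (measurableSet_le measurable_const hfm)
  have hex : ∃ k, volume (A k) ≠ 0 := by
    by_contra hcon
    push Not at hcon
    have h1 : μ (Icc a b) = 1 := by
      rw [← prob_compl_eq_zero_iff measurableSet_Icc]; exact hab
    have h2 : volume (⋃ k, A k) = 0 := measure_iUnion_null hcon
    have h3 : μ (⋃ k, A k) = 0 := hac h2
    have h4 : μ (Icc a b \ ⋃ k, A k) = 0 := by
      rw [← hμ, withDensity_apply _ (measurableSet_Icc.diff (MeasurableSet.iUnion hA))]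
      rw [setLIntegral_congr_fun (g := fun _ => 0) (measurableSet_Icc.diff (MeasurableSet.iUnion hA))]
      · simp
      · intro x hx
        simp only [Set.mem_sdiff, mem_iUnion, not_exists] at hx
        by_contra hne
        have hne : f x ≠ 0 := hne
        obtain ⟨k, hk⟩ := ENNReal.exists_inv_nat_lt hne
        apply hx.2 k
        refine ⟨hx.1, ?_⟩
        refine le_trans ?_ hk.le
        apply ENNReal.inv_le_inv.mpr
        exact le_self_add
    have h5 : μ (Icc a b) ≤ μ (⋃ k, A k) + μ (Icc a b \ ⋃ k, A k) := by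
      refine (measure_mono ?_).trans (measure_union_le _ _)
      intro x hx
      by_cases h : x ∈ ⋃ k, A k
      · left; exact h
      · right; exact ⟨hx, h⟩
    rw [h1, h3, h4] at h5
    simp at h5
  obtain ⟨k, hk⟩ := hex
  refine ⟨A k, ((k:ℝ≥0∞) + 1)⁻¹, hA k, hk, ?_, ?_, ?_⟩
  · apply ne_top_of_le_ne_top _ (measure_mono (show A k ⊆ Icc a b from fun x hx => hx.1))
    rw [Real.volume_Icc]; exact ENNReal.ofReal_ne_top
  · apply ENNReal.inv_ne_zero.mpr
    exact ENNReal.add_ne_top.mpr ⟨ENNReal.natCast_ne_top k, ENNReal.one_ne_top⟩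
  · rw [Measure.le_iff]
    intro B hB
    rw [← hμ, withDensity_apply _ hB, Measure.smul_apply, Measure.restrict_apply hB, smul_eq_mul]
    calc ((k:ℝ≥0∞) + 1)⁻¹ * volume (B ∩ A k) = ∫⁻ x in B ∩ A k, ((k:ℝ≥0∞) + 1)⁻¹ := by
          rw [setLIntegral_const]
      _ ≤ ∫⁻ x in B ∩ A k, f x := by
          apply setLIntegral_mono hfm
          intro x hx
          exact hx.2.2
      _ ≤ ∫⁻ x in B, f x := lintegral_mono_set inter_subset_left

end Pool.Agent.Helper438.CM
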