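import Pool.Agent.Helper438.CM6

set_option autoImplicit false
open MeasureTheory Set ProbabilityTheory Filter Topology
open scoped ENNReal NNReal unitInterval

namespace Pool.Agent.Helper438.CM

lemma ae_PP : ∀ᵐ p ∂PP, p.1.1 ∈ Ioc (0:ℝ) 1 ∧ p.1.2 ∈ Ioc (0:ℝ) 1 := by
  have m0 : MeasurePreserving (Prod.fst : (ℝ × ℝ) × I → ℝ × ℝ) PP (U.prod U) := measurePreserving_fst
  have m1 : ∀ᵐ p ∂(U.prod U), p.1 ∈ Ioc (0:ℝ) 1 :=
    (measurePreserving_fst (μ := U) (ν := U)).quasiMeasurePreserving.ae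
      (ae_restrict_mem measurableSet_Ioc)
  have m2 : ∀ᵐ p ∂(U.prod U), p.2 ∈ Ioc (0:ℝ) 1 :=
    (measurePreserving_snd (μ := U) (ν := U)).quasiMeasurePreserving.ae
      (ae_restrict_mem measurableSet_Ioc)
  filter_upwards [m0.quasiMeasurePreserving.ae m1, m0.quasiMeasurePreserving.ae m2] with p h1 h2
    using ⟨h1, h2⟩

lemma mp_PP : MeasurePreserving (fun p : (ℝ × ℝ) × I => p.1.1) PP U :=
  (measurePreserving_fst (μ := U) (ν := U)).comp
    (measurePreserving_fst (μ := U.prod U) (ν := (volume : Measure I)))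

/-- sum of the means from the sum of the laws -/
lemma integral_sum_map {Ω ι : Type*} [MeasurableSpace Ω] [Fintype ι] (P : Measure Ω)
    [IsProbabilityMeasure P] (Y : Ω → ι → ℝ) (hY : ∀ i, Measurable (fun p => Y p i))
    (hint : ∀ i, Integrable (fun p => Y p i) P) :
    ∫ x, x ∂(∑ i, P.map (fun p => Y p i)) = ∫ p, ∑ i, Y p i ∂P := by
  rw [integral_finsetSum_measure, integral_finsetSum]
  · apply Finset.sum_congr rfl
    intro i _
    rw [integral_map (hY i).aemeasurable (by fun_prop)]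
  · intro i _; exact hint i
  · intro i _
    rw [integrable_map_measure (by fun_prop) (hY i).aemeasurable]
    exact hint i

theorem main (μ : Measure ℝ) (hμ : IsProbabilityMeasure μ) (hac : μ ≪ volume)
    (hbd : ∃ a b : ℝ, μ (Set.Icc a b)ᶜ = 0) :
    ∃ N : ℕ, ∀ n : ℕ, N ≤ n →
        ∃ ν : Measure (Fin n → ℝ), IsProbabilityMeasure ν ∧
          (∀ i : Fin n, ν.map (fun x => x i) = μ) ∧
          ∃ c : ℝ, ∀ᵐ x ∂ν, ∑ i, x i = c := by
  obtain ⟨a, b, hab⟩ := hbd
  obtain ⟨A, δ, hA, hApos, hAfin, hδ, hdom⟩ := exists_dominated_set μ hac a b hab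
  obtain ⟨y0, l, C, κ, hl, hκ, hκb⟩ := exists_pair_kernel A hA hApos hAfin
  obtain ⟨Q, hQ, hQκ⟩ := κ.exists_measurable_map_eq_unitInterval
  obtain ⟨h, hh⟩ := exists_nat_ge ((b - a) / l)
  have hQs : ∀ s, Measurable (Q s) := fun s => hQ.of_uncurry_left
  have hC : ∀ s ∈ Icc (0:ℝ) 1, volume.map (Q s) ≤ (C:ℝ≥0∞) • volume.restrict A ∧
        volume.map (fun w => y0 + l * s - Q s w) ≤ (C:ℝ≥0∞) • volume.restrict A := by
    intro s hs
    refine ⟨by rw [hQκ]; exact (hκb s hs).1, ?_⟩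
    have := (hκb s hs).2
    rw [← hQκ, Measure.map_map (by fun_prop) (hQs s)] at this
    exact this
  -- the gadget law
  set τ0 : ℝ → ℝ := fun _ => h + 1 with hτ0
  have hτ0m : Measurable τ0 := measurable_const
  have hτ01 : ∀ v ∈ Ioc (0:ℝ) 1, 1 ≤ τ0 v := fun v _ => by simp [hτ0]
  have hτ02 : ∀ v ∈ Ioc (0:ℝ) 1, τ0 v ≤ 2 * h + 1 := fun v _ => by
    simp only [hτ0]; have : (0:ℝ) ≤ h := Nat.cast_nonneg h; linarith
  have hτ0i : ∫ v in Ioc (0:ℝ) 1, τ0 v = h + 1 := by simp [hτ0]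
  set A0 : Measure ℝ := ∑ i, PP.map (fun p => G h y0 l Q τ0 p i) with hA0
  have hA0le := sum_map_G_le h y0 l Q hQ τ0 hτ0m hτ01 hτ02 hτ0i A C hC
  rw [← hA0] at hA0le
  set m : ℕ := (2 * h + 2) * 2 with hm
  have hcardG : Fintype.card ((Fin (2 * h) ⊕ Bool) × Bool) = m := by
    simp [hm]
  have hA0univ : A0 univ = m := by
    rw [hA0, Measure.finsetSum_apply]
    have : ∀ i, (PP.map (fun p => G h y0 l Q τ0 p i)) univ = 1 := by
      intro i
      rw [Measure.map_apply (measurable_G h y0 l Q hQ τ0 hτ0m i) MeasurableSet.univ]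
      simp
    simp only [this, Finset.sum_const, Finset.card_univ, hcardG, nsmul_eq_mul, mul_one]
  have hfin0 : IsFiniteMeasure A0 := ⟨by rw [hA0univ]; exact ENNReal.natCast_lt_top m⟩
  -- choice of N
  have hδtop : δ ≠ ∞ := by
    rintro rfl
    have h1 := hdom univ
    rw [Measure.smul_apply, Measure.restrict_apply MeasurableSet.univ, univ_inter, measure_univ,
      smul_eq_mul, ENNReal.top_mul hApos] at h1
    simp at h1
  have hDfin : ((2 * h + 2) * (2 * (C:ℝ≥0∞))) / δ ≠ ∞ := by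
    apply ENNReal.div_ne_top _ hδ
    apply ENNReal.mul_ne_top
    · exact ENNReal.add_ne_top.mpr ⟨ENNReal.mul_ne_top (by simp) (ENNReal.natCast_ne_top h), by simp⟩
    · exact ENNReal.mul_ne_top (by simp) ENNReal.coe_ne_top
  obtain ⟨N1, hN1⟩ := ENNReal.exists_nat_gt hDfin
  refine ⟨max N1 (m + 1), ?_⟩
  intro n hn
  have hn1 : N1 ≤ n := (le_max_left _ _).trans hn
  have hn2 : m + 1 ≤ n := (le_max_right _ _).trans hn
  have hn0 : 0 < n := by omega
  have hA0μ : A0 ≤ (n : ℝ≥0∞) • μ := by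
    refine hA0le.trans ?_
    rw [Measure.le_iff]
    intro B hB
    have h1 : ((2 * h + 2) * (2 * (C:ℝ≥0∞))) ≤ n * δ := by
      have h2 : ((2 * h + 2) * (2 * (C:ℝ≥0∞))) / δ ≤ n := hN1.le.trans (by exact_mod_cast hn1)
      exact (ENNReal.div_le_iff hδ hδtop).mp h2
    have h3 := hdom B
    simp only [Measure.smul_apply, smul_eq_mul] at h3 ⊢
    calc _ ≤ (n * δ) * (volume.restrict A) B := by gcongr
      _ = n * (δ * (volume.restrict A) B) := by ring
      _ ≤ n * μ B := by gcongr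
  -- the remainder
  obtain ⟨k, hk⟩ : ∃ k, n = m + k := ⟨n - m, by omega⟩
  have hk0 : 0 < k := by omega
  have hkne : (k : ℝ≥0∞) ≠ 0 := by exact_mod_cast hk0.ne'
  have hkt : (k : ℝ≥0∞) ≠ ∞ := ENNReal.natCast_ne_top k
  set Mrem : Measure ℝ := (n : ℝ≥0∞) • μ - A0 with hMrem
  have hRA : Mrem + A0 = (n : ℝ≥0∞) • μ := Measure.sub_add_cancel_of_le hA0μ
  have hMremuniv : Mrem univ = k := by
    have h1 : Mrem univ + A0 univ = n := by
      rw [← Measure.add_apply, hRA]; simp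
    rw [hA0univ, hk, add_comm] at h1
    push_cast at h1
    exact (ENNReal.add_right_inj (ENNReal.natCast_ne_top m)).mp h1
  set R : Measure ℝ := (k : ℝ≥0∞)⁻¹ • Mrem with hR
  have hRk : (k : ℝ≥0∞) • R = Mrem := by
    rw [hR, smul_smul, ENNReal.mul_inv_cancel hkne hkt, one_smul]
  have hMremrob : IsProbabilityMeasure R := ⟨by
    rw [hR, Measure.smul_apply, hMremuniv, smul_eq_mul, ENNReal.inv_mul_cancel hkne hkt]⟩
  have hMremab : Mrem (Icc a b)ᶜ = 0 := by
    have h1 : Mrem ≤ (n : ℝ≥0∞) • μ := by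
      rw [← hRA]; exact Measure.le_add_right le_rfl
    have h2 := h1 (Icc a b)ᶜ
    rw [Measure.smul_apply, hab] at h2
    simpa using h2
  have hA0ab : A0 (Icc a b)ᶜ = 0 := by
    have h2 := hA0μ (Icc a b)ᶜ
    rw [Measure.smul_apply, hab] at h2
    simpa using h2
  have hRab : R (Icc a b)ᶜ = 0 := by
    rw [hR, Measure.smul_apply, hMremab]; simp
  obtain ⟨X, hXm, hXI, hXsum, hXdev⟩ := exists_systematic R a b hRab k hk0
  rw [hRk] at hXsum
  have hXmi : ∀ i, Measurable (fun v => X v i) := fun i => (measurable_pi_apply i).comp hXm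
  set W : ℝ → ℝ := fun v => ∑ i, X v i with hW
  have hWm : Measurable W := Finset.measurable_sum _ (fun i _ => hXmi i)
  -- integrability
  have hInt : ∀ (M : Measure ℝ), IsFiniteMeasure M → M (Icc a b)ᶜ = 0 → Integrable (fun x => x) M := by
    intro M hM hMab
    apply Integrable.of_bound (by fun_prop) (max |a| |b|)
    have : ∀ᵐ x ∂M, x ∈ Icc a b := by
      rw [ae_iff]; exact hMab
    filter_upwards [this] with x hx
    rw [Real.norm_eq_abs]
    exact abs_le_max_abs_abs hx.1 hx.2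
  have hXint : ∀ i, Integrable (fun v => X v i) U := by
    intro i
    apply Integrable.of_bound (hXmi i).aestronglyMeasurable (max |a| |b|)
    refine Eventually.of_forall (fun v => ?_)
    rw [Real.norm_eq_abs]
    exact abs_le_max_abs_abs (hXI v i).1 (hXI v i).2
  have hGlaw : ∀ (τ : ℝ → ℝ), (∑ i, PP.map (fun p => G h y0 l Q τ p i)) = A0 → Measurable τ →
      ∀ i, Integrable (fun p => G h y0 l Q τ p i) PP := by
    intro τ hτ hτm i
    have hm := measurable_G h y0 l Q hQ τ hτm i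
    have hle : PP.map (fun p => G h y0 l Q τ p i) ≤ A0 := by
      rw [← hτ]
      rw [Measure.le_iff]
      intro B _
      rw [Measure.finsetSum_apply]
      exact Finset.single_le_sum (f := fun i => (PP.map (fun p => G h y0 l Q τ p i)) B)
        (fun _ _ => zero_le) (Finset.mem_univ i)
    have h0 : (PP.map (fun p => G h y0 l Q τ p i)) (Icc a b)ᶜ = 0 :=
      le_antisymm ((hle _).trans hA0ab.le) zero_le
    have := hInt _ (Measure.isFiniteMeasure_map _ _) h0
    rw [integrable_map_measure (by fun_prop) hm.aemeasurable] at this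
    exact this
  -- means
  have hmeanA0 : ∫ x, x ∂A0 = (2 * h + 2) * y0 + l * (h + 1) := by
    rw [hA0, integral_sum_map PP (G h y0 l Q τ0) (measurable_G h y0 l Q hQ τ0 hτ0m)
      (hGlaw τ0 rfl hτ0m)]
    have : ∫ p, ∑ i, G h y0 l Q τ0 p i ∂PP = ∫ p, ((2 * h + 2) * y0 + l * (h + 1)) ∂PP := by
      apply integral_congr_ae
      filter_upwards [ae_PP] with p hp
      rw [sum_G h y0 l Q τ0 p hp.2 (hτ01 _ hp.1) (hτ02 _ hp.1)]
    rw [this]; simp
  have hmeanMrem : ∫ x, x ∂Mrem = ∫ v, W v ∂U := by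
    rw [← hXsum, integral_sum_map U X hXmi hXint]
  have hMremfin : IsFiniteMeasure Mrem := ⟨by rw [hMremuniv]; exact ENNReal.natCast_lt_top k⟩
  have hmean : (n:ℝ) * ∫ x, x ∂μ = ∫ v, W v ∂U + ((2 * h + 2) * y0 + l * (h + 1)) := by
    have h1 : ∫ x, x ∂(Mrem + A0) = ∫ x, x ∂Mrem + ∫ x, x ∂A0 :=
      integral_add_measure (hInt _ hMremfin hMremab) (hInt _ hfin0 hA0ab)
    rw [hRA, integral_smul_measure, hmeanMrem, hmeanA0] at h1
    simpa using h1
  have hWint : Integrable W U := by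
    rw [hW]; exact integrable_finsetSum _ (fun i _ => hXint i)
  have hdev1 : ∀ v ∈ Ioc (0:ℝ) 1, |W v - ∫ v, W v ∂U| ≤ b - a := by
    intro v hv
    have e1 : W v - ∫ v, W v ∂U = ∫ v', (W v - W v') ∂U := by
      rw [integral_sub (integrable_const _) hWint]; simp
    rw [e1]
    have e2 : ∀ᵐ v' ∂U, ‖W v - W v'‖ ≤ b - a := by
      filter_upwards [ae_restrict_mem measurableSet_Ioc] with v' hv'
      rw [Real.norm_eq_abs, abs_le]
      constructor
      · have := hXdev v hv v' hv'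
        simp only [hW]; linarith
      · have := hXdev v' hv' v hv
        simp only [hW]; linarith
    have := norm_integral_le_of_norm_le_const e2
    simpa using this
  -- the target
  set τ : ℝ → ℝ := fun v => (n * ∫ x, x ∂μ - W v - (2 * h + 2) * y0) / l with hτ
  have hτm : Measurable τ := by
    have : Measurable (fun v => (n * ∫ x, x ∂μ - W v - (2 * h + 2) * y0) / l) :=
      ((hWm.const_sub _).sub_const _).div_const _
    exact this
  have hτeq : ∀ v, τ v = (h + 1) + (∫ v, W v ∂U - W v) / l := by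
    intro v
    simp only [hτ]
    rw [hmean]
    field_simp
    ring
  have hτdev : ∀ v ∈ Ioc (0:ℝ) 1, |τ v - (h + 1)| ≤ h := by
    intro v hv
    rw [hτeq v, add_sub_cancel_left, abs_div, abs_of_pos hl]
    refine le_trans ?_ hh
    rw [abs_sub_comm]
    gcongr
    exact hdev1 v hv
  have hτ1 : ∀ v ∈ Ioc (0:ℝ) 1, 1 ≤ τ v := by
    intro v hv
    have := (abs_le.mp (hτdev v hv)).1
    linarith
  have hτ2 : ∀ v ∈ Ioc (0:ℝ) 1, τ v ≤ 2 * h + 1 := by
    intro v hv
    have := (abs_le.mp (hτdev v hv)).2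
    linarith
  have hτi : ∫ v in Ioc (0:ℝ) 1, τ v = h + 1 := by
    simp only [hτeq]
    have e1 : ∫ v in Ioc (0:ℝ) 1, ((h + 1 : ℝ) + (∫ v, W v ∂U - W v) / l) =
        (∫ v in Ioc (0:ℝ) 1, (h + 1 : ℝ)) + ∫ v in Ioc (0:ℝ) 1, (∫ v, W v ∂U - W v) / l :=
      integral_add (integrable_const _) (((integrable_const _).sub hWint).div_const _)
    rw [e1, integral_div]
    have e2 : ∫ v in Ioc (0:ℝ) 1, (∫ v, W v ∂U - W v) = 0 := by
      rw [integral_sub (integrable_const _) hWint]; simp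
    rw [e2]; simp
  have hτlaw : (∑ i, PP.map (fun p => G h y0 l Q τ p i)) = A0 := by
    ext B hB
    rw [hA0, sum_map_G h y0 l Q hQ τ hτm hτ1 hτ2 hτi B hB,
      sum_map_G h y0 l Q hQ τ0 hτ0m hτ01 hτ02 hτ0i B hB]
  -- the joint vector
  let Y : (ℝ × ℝ) × I → (Fin k ⊕ ((Fin (2 * h) ⊕ Bool) × Bool)) → ℝ :=
    fun p => Sum.elim (X p.1.1) (G h y0 l Q τ p)
  have hYm : Measurable Y := by
    apply measurable_pi_lambda
    rintro (i | i)
    · exact (hXmi i).comp (by fun_prop)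
    · exact measurable_G h y0 l Q hQ τ hτm i
  have hcard : Fintype.card (Fin k ⊕ ((Fin (2 * h) ⊕ Bool) × Bool)) = n := by
    rw [Fintype.card_sum, hcardG, Fintype.card_fin]; omega
  refine symmetrize PP Y hYm n hn0 hcard μ ?_ (n * ∫ x, x ∂μ) ?_
  · rw [Fintype.sum_sum_type]
    have e1 : ∀ i : Fin k, PP.map (fun p => Y p (Sum.inl i)) = U.map (fun v => X v i) := by
      intro i
      have := mp_PP.map_eq
      rw [← this, Measure.map_map (hXmi i) mp_PP.measurable]
      rfl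
    have e2 : ∀ i, PP.map (fun p => Y p (Sum.inr i)) = PP.map (fun p => G h y0 l Q τ p i) := fun i => rfl
    simp only [e1, e2]
    rw [hXsum, hτlaw, hRA]
  · filter_upwards [ae_PP] with p hp
    rw [Fintype.sum_sum_type]
    have e1 : ∑ i, Y p (Sum.inl i) = W p.1.1 := rfl
    have e2 : ∑ i, Y p (Sum.inr i) = ∑ i, G h y0 l Q τ p i := rfl
    rw [e1, e2, sum_G h y0 l Q τ p hp.2 (hτ1 _ hp.1) (hτ2 _ hp.1)]
    simp only [hτ]
    field_simp
    ring

end Pool.Agent.Helper438.CM
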