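import Mathlib

set_option autoImplicit false
open MeasureTheory Set Filter Topology
open scoped ENNReal NNReal

namespace Pool.Agent.Helper438.GG

abbrev Cc : Type := UnitAddCircle

instance : IsProbabilityMeasure (volume : Measure Cc) := ⟨UnitAddCircle.measure_univ⟩

/-- rotation angle -/
noncomputable def al : Cc := ((√2 : ℝ) : Cc)

/-- representative in `[0,1)` -/
noncomputable def g (u : Cc) : ℝ := (AddCircle.equivIco 1 0 u : ℝ)

lemma g_nonneg (u : Cc) : 0 ≤ g u := (AddCircle.equivIco 1 0 u).2.1

lemma g_lt_one (u : Cc) : g u < 1 := by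
  have := (AddCircle.equivIco 1 0 u).2.2
  simpa [g] using this

lemma coe_g (u : Cc) : ((g u : ℝ) : Cc) = u := AddCircle.coe_equivIco

lemma g_coe {x : ℝ} (hx : x ∈ Ico (0:ℝ) 1) : g (x : Cc) = x := by
  have : x ∈ Ico (0:ℝ) (0 + 1) := by simpa using hx
  exact AddCircle.equivIco_coe_of_mem (p := (1:ℝ)) (a := 0) this

lemma measurable_g : Measurable g :=
  measurable_subtype_coe.comp (AddCircle.measurableEquivIco 1 0).measurable

noncomputable def eps (u : Cc) : ℝ := g (al + u) - g u

lemma measurable_eps : Measurable eps :=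
  (measurable_g.comp (measurable_const_add al)).sub measurable_g

lemma eps_mem (u : Cc) : ∃ n : ℤ, eps u = n + √2 := by
  have h1 : ((g (al + u) - g u - √2 : ℝ) : Cc) = 0 := by
    rw [AddCircle.coe_sub, AddCircle.coe_sub, coe_g, coe_g]
    simp [al]
  rw [AddCircle.coe_eq_zero_iff] at h1
  obtain ⟨n, hn⟩ := h1
  refine ⟨n, ?_⟩
  simp only [zsmul_eq_mul, mul_one] at hn
  unfold eps
  linarith

lemma neg_one_lt_eps (u : Cc) : -1 < eps u := by
  unfold eps
  linarith [g_nonneg (al + u), g_lt_one u]

lemma eps_lt_one (u : Cc) : eps u < 1 := by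
  unfold eps
  linarith [g_nonneg u, g_lt_one (al + u)]

lemma ergodic_rot : Ergodic (fun u : Cc => al + u) volume := by
  rw [ergodic_add_left_iff_denseRange_zsmul]
  have h := (AddCircle.denseRange_zsmul_coe_iff (a := √2) (p := (1:ℝ))).mpr (by
    simpa using irrational_sqrt_two)
  exact h

/-- the tower map -/
noncomputable def T (p : Cc × Bool) : Cc × Bool := if p.2 then (al + p.1, false) else (p.1, true)

lemma T_false (u : Cc) : T (u, false) = (u, true) := by simp [T]
lemma T_true (u : Cc) : T (u, true) = (al + u, false) := by simp [T]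

lemma measurable_T : Measurable T := by
  unfold T
  apply Measurable.ite
  · exact measurable_snd (MeasurableSet.of_discrete (s := {b : Bool | b = true}))
  · exact ((measurable_const_add al).comp measurable_fst).prodMk measurable_const
  · exact measurable_fst.prodMk measurable_const

/-- the invariant law of the tower -/
noncomputable def mu : Measure (Cc × Bool) :=
  (2:ℝ≥0∞)⁻¹ • ((volume : Measure Cc).map (fun u => (u, false)) +
    (volume : Measure Cc).map (fun u => (u, true)))

lemma meas_pair (b : Bool) : Measurable (fun u : Cc => (u, b)) := measurable_id.prodMk measurable_const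

lemma mu_apply (S : Set (Cc × Bool)) (hS : MeasurableSet S) :
    mu S = (2:ℝ≥0∞)⁻¹ * (volume {u : Cc | (u, false) ∈ S} + volume {u : Cc | (u, true) ∈ S}) := by
  unfold mu
  rw [Measure.smul_apply, Measure.add_apply, Measure.map_apply (meas_pair _) hS,
    Measure.map_apply (meas_pair _) hS]
  rfl

instance : IsProbabilityMeasure mu := ⟨by
  rw [mu_apply _ MeasurableSet.univ]
  simp only [mem_univ, ofPred_true, measure_univ]
  rw [one_add_one_eq_two]
  exact ENNReal.inv_mul_cancel (by simp) (by simp)⟩

lemma mp_T : MeasurePreserving T mu mu := by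
  refine ⟨measurable_T, ?_⟩
  ext S hS
  rw [Measure.map_apply measurable_T hS, mu_apply _ (measurable_T hS), mu_apply _ hS]
  have h1 : {u : Cc | (u, false) ∈ T ⁻¹' S} = {u : Cc | (u, true) ∈ S} := by
    ext u; simp [T]
  have h2 : {u : Cc | (u, true) ∈ T ⁻¹' S} = (fun u => al + u) ⁻¹' {u : Cc | (u, false) ∈ S} := by
    ext u; simp [T]
  rw [h1, h2, (ergodic_rot.toMeasurePreserving).measure_preimage
    (show MeasurableSet {u : Cc | (u, false) ∈ S} from meas_pair false hS).nullMeasurableSet, add_comm]

lemma ergodic_T : Ergodic T mu := by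
  refine ⟨mp_T, ⟨?_⟩⟩
  intro S hS hTS
  set S0 : Set Cc := {u | (u, false) ∈ S} with hS0
  set S1 : Set Cc := {u | (u, true) ∈ S} with hS1
  have e1 : S0 = S1 := by
    ext u
    simp only [hS0, hS1, mem_ofPred_eq]
    constructor
    · intro h
      rw [← hTS, mem_preimage, T_false] at h
      exact h
    · intro h
      rw [← hTS, mem_preimage, T_false]
      exact h
  have e2 : (fun u => al + u) ⁻¹' S0 = S0 := by
    rw [show (fun u => al + u) ⁻¹' S0 = S1 from ?_, e1]
    ext u
    simp only [hS0, hS1, mem_ofPred_eq, mem_preimage]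
    constructor
    · intro h
      rw [← hTS, mem_preimage, T_true]
      exact h
    · intro h
      rw [← hTS, mem_preimage, T_true] at h
      exact h
  have hS0m : MeasurableSet S0 := meas_pair false hS
  rcases ergodic_rot.toPreErgodic.prob_eq_zero_or_one hS0m e2 with h | h
  · have h0 : mu S = 0 := by
      rw [mu_apply S hS]
      show (2:ℝ≥0∞)⁻¹ * (volume S0 + volume S1) = 0
      rw [← e1, h]; simp
    have : S =ᵐ[mu] (∅ : Set _) := by
      rwa [ae_eq_empty]
    rw [eventuallyConst_set']
    left; exact this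
  · have h0 : mu Sᶜ = 0 := by
      rw [prob_compl_eq_zero_iff hS, mu_apply S hS]
      show (2:ℝ≥0∞)⁻¹ * (volume S0 + volume S1) = 1
      rw [← e1, h, one_add_one_eq_two]
      exact ENNReal.inv_mul_cancel (by simp) (by simp)
    have : S =ᵐ[mu] (univ : Set _) := by
      rwa [ae_eq_univ]
    rw [eventuallyConst_set']
    right; exact this

/-- interarrival times -/
noncomputable def tt (p : Cc × Bool) : ℝ := if p.2 then 2 else 0
/-- service times -/
noncomputable def ss (p : Cc × Bool) : ℝ := if p.2 then 2 + eps p.1 else 1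

lemma meas_snd_true : MeasurableSet {p : Cc × Bool | p.2 = true} :=
  measurable_snd (MeasurableSet.of_discrete (s := {b : Bool | b = true}))

lemma measurable_tt : Measurable tt := Measurable.ite meas_snd_true measurable_const measurable_const
lemma measurable_ss : Measurable ss :=
  Measurable.ite meas_snd_true ((measurable_eps.comp measurable_fst).const_add 2) measurable_const

lemma tt_nonneg (p : Cc × Bool) : 0 ≤ tt p := by unfold tt; split_ifs <;> norm_num
lemma ss_nonneg (p : Cc × Bool) : 0 ≤ ss p := by
  unfold ss; split_ifs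
  · linarith [neg_one_lt_eps p.1]
  · norm_num
lemma tt_le (p : Cc × Bool) : tt p ≤ 3 := by unfold tt; split_ifs <;> norm_num
lemma ss_le (p : Cc × Bool) : ss p ≤ 3 := by
  unfold ss; split_ifs
  · linarith [eps_lt_one p.1]
  · norm_num

lemma integrable_tt : Integrable tt mu := by
  apply Integrable.of_bound measurable_tt.aestronglyMeasurable 3
  exact Eventually.of_forall (fun p => by rw [Real.norm_eq_abs, abs_of_nonneg (tt_nonneg p)]; exact tt_le p)
lemma integrable_ss : Integrable ss mu := by
  apply Integrable.of_bound measurable_ss.aestronglyMeasurable 3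
  exact Eventually.of_forall (fun p => by rw [Real.norm_eq_abs, abs_of_nonneg (ss_nonneg p)]; exact ss_le p)

lemma integral_mu (f : Cc × Bool → ℝ) (hf : Measurable f) (C : ℝ) (hb : ∀ p, |f p| ≤ C) :
    ∫ p, f p ∂mu = ((∫ u : Cc, f (u, false)) + ∫ u : Cc, f (u, true)) / 2 := by
  have h : ∀ b : Bool, Integrable f ((volume : Measure Cc).map (fun u => (u, b))) := by
    intro b
    apply Integrable.of_bound hf.aestronglyMeasurable C
    exact Eventually.of_forall (fun p => by rw [Real.norm_eq_abs]; exact hb p)
  unfold mu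
  rw [integral_smul_measure, integral_add_measure (h false) (h true),
    integral_map (meas_pair false).aemeasurable hf.aestronglyMeasurable,
    integral_map (meas_pair true).aemeasurable hf.aestronglyMeasurable]
  simp only [ENNReal.toReal_inv, ENNReal.toReal_ofNat, smul_eq_mul]
  ring

lemma integrable_g : Integrable g (volume : Measure Cc) := by
  apply Integrable.of_bound measurable_g.aestronglyMeasurable 1
  exact Eventually.of_forall (fun p => by
    rw [Real.norm_eq_abs, abs_of_nonneg (g_nonneg p)]; exact (g_lt_one p).le)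

lemma integral_eps : ∫ u : Cc, eps u = 0 := by
  unfold eps
  have h1 : Integrable (fun u : Cc => g (al + u)) volume := by
    apply Integrable.of_bound (measurable_g.comp (measurable_const_add al)).aestronglyMeasurable 1
    exact Eventually.of_forall (fun p => by
      rw [Real.norm_eq_abs]
      show |g (al + p)| ≤ 1
      rw [abs_of_nonneg (g_nonneg _)]; exact (g_lt_one _).le)
  rw [integral_sub h1 integrable_g, integral_add_left_eq_self]
  simp

lemma integral_ss : ∫ p, ss p ∂mu = 3/2 := by
  rw [integral_mu ss measurable_ss 3 (fun p => by rw [abs_of_nonneg (ss_nonneg p)]; exact ss_le p)]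
  have h1 : ∀ u : Cc, ss (u, false) = 1 := fun u => by simp [ss]
  have h2 : ∀ u : Cc, ss (u, true) = 2 + eps u := fun u => by simp [ss]
  simp only [h1, h2]
  have h3 : Integrable eps (volume : Measure Cc) := by
    apply Integrable.of_bound measurable_eps.aestronglyMeasurable 1
    exact Eventually.of_forall (fun p => by
      rw [Real.norm_eq_abs, abs_le]; exact ⟨(neg_one_lt_eps p).le, (eps_lt_one p).le⟩)
  rw [integral_add (integrable_const _) h3, integral_eps]
  simp
  norm_num

lemma integral_tt : ∫ p, tt p ∂mu = 1 := by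
  rw [integral_mu tt measurable_tt 3 (fun p => by rw [abs_of_nonneg (tt_nonneg p)]; exact tt_le p)]
  have h1 : ∀ u : Cc, tt (u, false) = 0 := fun u => by simp [tt]
  have h2 : ∀ u : Cc, tt (u, true) = 2 := fun u => by simp [tt]
  simp only [h1, h2]
  simp

/-! the workload recursion -/

/-- one step of the Kiefer-Wolfowitz recursion with two servers -/
noncomputable def step (s t : ℝ) (w : Fin (1+1) → ℝ) : Fin (1+1) → ℝ :=
  fun i : Fin (1+1) =>
        max ((w + (Pi.single 0 s : Fin (1+1) → ℝ) - (fun _ : Fin (1+1) => t))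
              (Tuple.sort (w + (Pi.single 0 s : Fin (1+1) → ℝ) - (fun _ : Fin (1+1) => t)) i)) 0

lemma sort_pair {a b : ℝ} (hab : a ≤ b) :
    (![a, b] : Fin 2 → ℝ) ∘ Tuple.sort (![a, b] : Fin 2 → ℝ) = ![a, b] := by
  have hm : Monotone (![a, b] : Fin 2 → ℝ) := by
    intro i j hij
    fin_cases i <;> fin_cases j <;> simp_all
  have := (Tuple.sort_eq_refl_iff_monotone (f := (![a, b] : Fin 2 → ℝ))).mpr hm
  rw [this]; rfl

lemma sort_pair' {a b : ℝ} (hab : b ≤ a) :
    (![a, b] : Fin 2 → ℝ) ∘ Tuple.sort (![a, b] : Fin 2 → ℝ) = ![b, a] := by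
  have h1 : (![a, b] : Fin 2 → ℝ) ∘ (Equiv.swap 0 1 : Equiv.Perm (Fin 2)) = ![b, a] := by
    funext i; fin_cases i <;> simp
  rw [← h1]
  symm
  rw [Tuple.comp_sort_eq_comp_iff_monotone, h1]
  intro i j hij
  fin_cases i <;> fin_cases j <;> simp_all

lemma step_eq (s t a b : ℝ) : step s t ![a, b] =
    fun i => max (((![a + s - t, b - t] : Fin 2 → ℝ) ∘ Tuple.sort (![a + s - t, b - t] : Fin 2 → ℝ)) i) 0 := by
  have h1 : (![a, b] + (Pi.single 0 s : Fin 2 → ℝ) - (fun _ : Fin 2 => t)) = ![a + s - t, b - t] := by
    funext i; fin_cases i <;> simp [Matrix.vecHead, Matrix.vecTail]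
  unfold step
  rw [h1]
  rfl

lemma step_A (x : ℝ) (h0 : 0 ≤ x) (h1 : x < 1) : step 1 0 ![0, x] = ![x, 1] := by
  rw [step_eq, sort_pair' (by linarith)]
  funext i; fin_cases i <;> simp [h0]

lemma step_F (x y e : ℝ) (h0 : 0 ≤ x) (hy : y ≤ 1) (he : -1 < e) :
    step (2 + e) 2 ![x, y] = ![0, max (x + e) 0] := by
  rw [step_eq, sort_pair' (by linarith)]
  funext i; fin_cases i
  · simp; linarith
  · simp; congr 1; ring

end Pool.Agent.Helper438.GG
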