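import Pool.Agent.Helper438.GG1

set_option autoImplicit false
open MeasureTheory Set Filter Topology
open scoped ENNReal NNReal

namespace Pool.Agent.Helper438.GG

/-- the workload vectors -/
noncomputable def W : ℕ → (Cc × Bool) → (Fin (1+1) → ℝ)
  | 0, _ => 0
  | n+1, ω => step (ss (T^[n] ω)) (tt (T^[n] ω)) (W n ω)

/-- the invariant -/
def Inv (n : ℕ) (ω : Cc × Bool) : Prop :=
  ∃ X : ℝ, 0 ≤ X ∧ X ≤ g (T^[n] ω).1 ∧
    (∀ j ≤ n, (T^[j] ω).2 = false → g (T^[n] ω).1 - g (T^[j] ω).1 ≤ X) ∧
    ((T^[n] ω).2 = false → W n ω = ![0, X]) ∧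
    ((T^[n] ω).2 = true → ∃ Y : ℝ, ((Y = 0 ∧ n = 0) ∨ Y = 1) ∧ W n ω = ![X, Y])

lemma inv_all (ω : Cc × Bool) : ∀ n, Inv n ω := by
  intro n
  induction n with
  | zero =>
    refine ⟨0, le_rfl, g_nonneg _, ?_, ?_, ?_⟩
    · intro j hj _
      have : j = 0 := by omega
      subst this; simp
    · intro _
      funext i; fin_cases i <;> simp [W]
    · intro _
      refine ⟨0, Or.inl ⟨rfl, rfl⟩, ?_⟩
      funext i; fin_cases i <;> simp [W]
  | succ n ih =>
    obtain ⟨X, h0, h1, h2, h3, h4⟩ := ih
    have hT : T^[n+1] ω = T (T^[n] ω) := Function.iterate_succ_apply' T n ω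
    rcases hb : T^[n] ω with ⟨u, b⟩
    rw [hb] at h1 h2 h3 h4 hT
    cases b
    · -- phase false: next phase true
      rw [T_false] at hT
      have hX1 : X < 1 := lt_of_le_of_lt h1 (g_lt_one _)
      refine ⟨X, h0, by rw [hT]; exact h1, ?_, ?_, ?_⟩
      · intro j hj hjf
        rcases Nat.lt_or_ge n j with h | h
        · have : j = n + 1 := by omega
          subst this
          rw [hT] at hjf; simp at hjf
        · rw [hT]; exact h2 j h hjf
      · intro hf; rw [hT] at hf; simp at hf
      · intro _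
        refine ⟨1, Or.inr rfl, ?_⟩
        have hW : W (n+1) ω = step (ss (T^[n] ω)) (tt (T^[n] ω)) (W n ω) := rfl
        rw [hW, h3 rfl, hb]
        have e1 : ss (u, false) = 1 := by simp [ss]
        have e2 : tt (u, false) = 0 := by simp [tt]
        rw [e1, e2, step_A X h0 hX1]
    · rw [T_true] at hT
      obtain ⟨Y, hY, hWY⟩ := h4 rfl
      have hY1 : Y ≤ 1 := by rcases hY with ⟨h, _⟩ | h <;> rw [h] <;> norm_num
      have hg : g (al + u) = g u + eps u := by unfold eps; ring
      refine ⟨max (X + eps u) 0, le_max_right _ _, ?_, ?_, ?_, ?_⟩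
      · rw [hT]
        show max (X + eps u) 0 ≤ g (al + u)
        apply max_le _ (g_nonneg _)
        rw [hg]
        have : X ≤ g u := h1
        linarith
      · intro j hj hjf
        rcases Nat.lt_or_ge n j with h | h
        · have : j = n + 1 := by omega
          subst this
          simp
        · rw [hT]
          show g (al + u) - _ ≤ _
          have := h2 j h hjf
          refine le_trans ?_ (le_max_left _ _)
          rw [hg]
          have h5 : g u - g (T^[j] ω).1 ≤ X := this
          linarith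
      · intro _
        have hW : W (n+1) ω = step (ss (T^[n] ω)) (tt (T^[n] ω)) (W n ω) := rfl
        rw [hW, hWY, hb]
        have e1 : ss (u, true) = 2 + eps u := by simp [ss]
        have e2 : tt (u, true) = 2 := by simp [tt]
        rw [e1, e2, step_F X Y (eps u) h0 hY1 (neg_one_lt_eps u)]
      · intro hf; rw [hT] at hf; simp at hf

/-- the countable set of values -/
def D : Set (Fin (1+1) → ℝ) := {w | ∀ i, ∃ a b : ℤ, w i = a + b * √2}

lemma D_countable : D.Countable := by
  have : D ⊆ range (fun f : Fin (1+1) → ℤ × ℤ => (fun i => ((f i).1 : ℝ) + (f i).2 * √2)) := by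
    intro w hw
    choose a b h using hw
    exact ⟨fun i => (a i, b i), by funext i; exact (h i).symm⟩
  exact (countable_range _).mono this

lemma step_mem_D (s t : ℝ) (w : Fin (1+1) → ℝ) (hw : w ∈ D) (hs : ∃ a b : ℤ, s = a + b * √2)
    (ht : ∃ a b : ℤ, t = a + b * √2) : step s t w ∈ D := by
  obtain ⟨a1, b1, rfl⟩ := hs
  obtain ⟨a2, b2, rfl⟩ := ht
  have hv : ∀ i, ∃ a b : ℤ, (w + (Pi.single 0 ((a1:ℝ) + b1 * √2) : Fin (1+1) → ℝ) -
      (fun _ : Fin (1+1) => ((a2:ℝ) + b2 * √2))) i = a + b * √2 := by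
    intro i
    obtain ⟨a, b, h⟩ := hw i
    by_cases hi : i = 0
    · subst hi
      refine ⟨a + a1 - a2, b + b1 - b2, ?_⟩
      simp only [Pi.sub_apply, Pi.add_apply, Pi.single_eq_same, h]
      push_cast; ring
    · refine ⟨a - a2, b - b2, ?_⟩
      simp only [Pi.sub_apply, Pi.add_apply, Pi.single_eq_of_ne hi, h]
      push_cast; ring
  intro i
  unfold step
  rcases max_choice ((w + (Pi.single 0 ((a1:ℝ) + b1 * √2) : Fin (1+1) → ℝ) -
      (fun _ : Fin (1+1) => ((a2:ℝ) + b2 * √2))) (Tuple.sort (w + (Pi.single 0 ((a1:ℝ) + b1 * √2) : Fin (1+1) → ℝ) -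
      (fun _ : Fin (1+1) => ((a2:ℝ) + b2 * √2))) i)) 0 with h | h
  · rw [h]; exact hv _
  · rw [h]; exact ⟨0, 0, by simp⟩

lemma W_mem_D (n : ℕ) (ω : Cc × Bool) : W n ω ∈ D := by
  induction n with
  | zero => intro i; exact ⟨0, 0, by simp [W]⟩
  | succ n ih =>
    have hW : W (n+1) ω = step (ss (T^[n] ω)) (tt (T^[n] ω)) (W n ω) := rfl
    rw [hW]
    apply step_mem_D _ _ _ ih
    · unfold ss; split_ifs
      · obtain ⟨m, hm⟩ := eps_mem (T^[n] ω).1
        exact ⟨2 + m, 1, by rw [hm]; push_cast; ring⟩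
      · exact ⟨1, 0, by simp⟩
    · unfold tt; split_ifs
      · exact ⟨2, 0, by simp⟩
      · exact ⟨0, 0, by simp⟩

/-! measures of intervals -/

lemma volume_g_Ico (c δ : ℝ) : (volume : Measure Cc) {u | g u ∈ Ico c (c + δ)} ≤ ENNReal.ofReal δ := by
  have hm : MeasurableSet {u : Cc | g u ∈ Ico c (c + δ)} := measurable_g measurableSet_Ico
  rw [← (UnitAddCircle.measurePreserving_mk 0).measure_preimage hm.nullMeasurableSet,
    Measure.restrict_apply (((UnitAddCircle.measurePreserving_mk 0).measurable) hm)]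
  have hsub : ((fun x : ℝ => (x : UnitAddCircle)) ⁻¹' {u : Cc | g u ∈ Ico c (c + δ)}) ∩ Ioc (0:ℝ) (0+1) ⊆
      Ico c (c + δ) ∪ {1} := by
    rintro x ⟨hx1, hx2⟩
    by_cases h : x = 1
    · right; exact h
    · left
      have hx3 : x ∈ Ico (0:ℝ) 1 := ⟨hx2.1.le, lt_of_le_of_ne (by linarith [hx2.2]) h⟩
      have : g (x : Cc) ∈ Ico c (c + δ) := hx1
      rwa [g_coe hx3] at this
  refine (measure_mono hsub).trans ((measure_union_le _ _).trans ?_)
  rw [Real.volume_Ico, Real.volume_singleton]
  simp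

lemma volume_g_lt_pos (δ : ℝ) (hδ : 0 < δ) : (volume : Measure Cc) {u | g u < δ} ≠ 0 := by
  have hm : MeasurableSet {u : Cc | g u < δ} := measurableSet_lt measurable_g measurable_const
  rw [← (UnitAddCircle.measurePreserving_mk 0).measure_preimage hm.nullMeasurableSet,
    Measure.restrict_apply (((UnitAddCircle.measurePreserving_mk 0).measurable) hm)]
  have hsub : Ioo (0:ℝ) (min δ 1) ⊆
      ((fun x : ℝ => (x : UnitAddCircle)) ⁻¹' {u : Cc | g u < δ}) ∩ Ioc (0:ℝ) (0+1) := by
    intro x hx
    have hx1 : x < δ := lt_of_lt_of_le hx.2 (min_le_left _ _)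
    have hx2 : x < 1 := lt_of_lt_of_le hx.2 (min_le_right _ _)
    refine ⟨?_, ⟨hx.1, by linarith⟩⟩
    show g (x : Cc) < δ
    rw [g_coe ⟨hx.1.le, hx2⟩]; exact hx1
  intro h0
  have h1 := measure_mono_null hsub h0
  rw [Real.volume_Ioo, ENNReal.ofReal_eq_zero] at h1
  have : 0 < min δ 1 := lt_min hδ one_pos
  linarith

/-- points which avoid the target set up to time `n`. -/
def Av (δ : ℝ) (n : ℕ) : Set (Cc × Bool) :=
  {ω | ∀ j ≤ n, (T^[j] ω).2 = false → δ ≤ g (T^[j] ω).1}

lemma measurableSet_Av (δ : ℝ) (n : ℕ) : MeasurableSet (Av δ n) := by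
  have : Av δ n = ⋂ j ∈ Finset.range (n+1), {ω | (T^[j] ω).2 = true} ∪ {ω | δ ≤ g (T^[j] ω).1} := by
    ext ω
    simp only [Av, mem_ofPred_eq, mem_iInter, Finset.mem_range, mem_union]
    constructor
    · intro h j hj
      by_cases hb : (T^[j] ω).2 = false
      · right; exact h j (by omega) hb
      · left; simpa using hb
    · intro h j hj hb
      rcases h j (by omega) with h1 | h1
      · rw [hb] at h1; simp at h1
      · exact h1
  rw [this]
  apply Finset.measurableSet_biInter
  intro j _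
  apply MeasurableSet.union
  · exact (measurable_T.iterate j) meas_snd_true
  · exact (measurable_T.iterate j) (measurableSet_le measurable_const (measurable_g.comp measurable_fst))

lemma tendsto_Av (δ : ℝ) (hδ : 0 < δ) : Tendsto (fun n => mu (Av δ n)) atTop (𝓝 0) := by
  have hanti : Antitone (Av δ) := by
    intro m n hmn ω hω j hj
    exact hω j (hj.trans hmn)
  have h1 := tendsto_measure_iInter_atTop (μ := mu) (fun n => (measurableSet_Av δ n).nullMeasurableSet)
    hanti ⟨0, measure_ne_top _ _⟩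
  have h2 : mu (⋂ n, Av δ n) = 0 := by
    set B : Set (Cc × Bool) := ⋂ n, Av δ n with hB
    have hBm : MeasurableSet B := MeasurableSet.iInter (fun n => measurableSet_Av δ n)
    have hle : B ≤ᵐ[mu] T ⁻¹' B := by
      apply HasSubset.Subset.eventuallyLE
      intro ω hω
      rw [hB, mem_preimage, mem_iInter]
      intro n j hj hjf
      rw [hB, mem_iInter] at hω
      have := hω (n+1) (j+1) (by omega)
      rw [Function.iterate_succ_apply] at this
      exact this hjf
    rcases ergodic_T.ae_empty_or_univ_of_ae_le_preimage hBm.nullMeasurableSet hle with h | h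
    · rwa [ae_eq_empty] at h
    · exfalso
      rw [ae_eq_univ] at h
      have hG : {ω : Cc × Bool | ω.2 = false ∧ g ω.1 < δ} ⊆ Bᶜ := by
        intro ω hω hωB
        rw [hB, mem_iInter] at hωB
        have := hωB 0 0 le_rfl hω.1
        exact absurd hω.2 (not_lt.mpr this)
      have h3 := measure_mono_null hG h
      have hm : MeasurableSet {ω : Cc × Bool | ω.2 = false ∧ g ω.1 < δ} := by
        apply MeasurableSet.inter
        · exact measurable_snd (MeasurableSet.of_discrete (s := {b : Bool | b = false}))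
        · exact measurableSet_lt (measurable_g.comp measurable_fst) measurable_const
      rw [mu_apply _ hm] at h3
      simp only [mem_ofPred_eq, true_and, mul_eq_zero, add_eq_zero] at h3
      rcases h3 with h3 | h3
      · simp at h3
      · exact volume_g_lt_pos δ hδ h3.1
  rw [h2] at h1
  exact h1

end Pool.Agent.Helper438.GG
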