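import Pool.Agent.Helper438.GG2

set_option autoImplicit false
open MeasureTheory Set Filter Topology
open scoped ENNReal NNReal

namespace Pool.Agent.Helper438.GG

lemma phase_measure (n : ℕ) : mu {ω | (T^[n] ω).2 = false} = (2:ℝ≥0∞)⁻¹ := by
  have hm : MeasurableSet {p : Cc × Bool | p.2 = false} :=
    measurable_snd (MeasurableSet.of_discrete (s := {b : Bool | b = false}))
  have h1 : mu ((T^[n]) ⁻¹' {p : Cc × Bool | p.2 = false}) = mu {p : Cc × Bool | p.2 = false} :=
    (mp_T.iterate n).measure_preimage hm.nullMeasurableSet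
  have h2 : mu {ω | (T^[n] ω).2 = false} = mu {p : Cc × Bool | p.2 = false} := h1
  rw [h2, mu_apply _ hm]
  simp

/-- the atoms of the law of `W n` at phase-zero points vanish -/
lemma atom_bound (d : Fin (1+1) → ℝ) (hd0 : d 1 < 1) (δ : ℝ) (hδ : 0 < δ) (n : ℕ) (hn : 1 ≤ n) :
    mu {ω | W n ω = d} ≤ ENNReal.ofReal δ + mu (Av δ n) := by
  have hsub : {ω | W n ω = d} ⊆ (T^[n]) ⁻¹' {p : Cc × Bool | g p.1 ∈ Ico (d 1) (d 1 + δ)} ∪ Av δ n := by
    intro ω hω
    have hω : W n ω = d := hω
    obtain ⟨X, h0, h1, h2, h3, h4⟩ := inv_all ω n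
    by_cases hb : (T^[n] ω).2 = false
    · have hX : d 1 = X := by rw [← hω, h3 hb]; simp
      by_cases hg : g (T^[n] ω).1 < d 1 + δ
      · left
        exact ⟨by rw [hX]; exact h1, hg⟩
      · right
        intro j hj hjf
        have := h2 j hj hjf
        push Not at hg
        linarith
    · exfalso
      have hb' : (T^[n] ω).2 = true := by simpa using hb
      obtain ⟨Y, hY, hWY⟩ := h4 hb'
      have hY1 : Y = 1 := by
        rcases hY with ⟨_, h⟩ | h
        · omega
        · exact h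
      rw [hω] at hWY
      rw [hWY, hY1] at hd0
      simp at hd0
  refine (measure_mono hsub).trans ((measure_union_le _ _).trans ?_)
  gcongr
  have hm : MeasurableSet {p : Cc × Bool | g p.1 ∈ Ico (d 1) (d 1 + δ)} :=
    (measurable_g.comp measurable_fst) measurableSet_Ico
  rw [(mp_T.iterate n).measure_preimage hm.nullMeasurableSet, mu_apply _ hm]
  have h5 := volume_g_Ico (d 1) δ
  calc (2:ℝ≥0∞)⁻¹ * (volume {u : Cc | (u, false) ∈ {p : Cc × Bool | g p.1 ∈ Ico (d 1) (d 1 + δ)}} +
        volume {u : Cc | (u, true) ∈ {p : Cc × Bool | g p.1 ∈ Ico (d 1) (d 1 + δ)}})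
      ≤ (2:ℝ≥0∞)⁻¹ * (ENNReal.ofReal δ + ENNReal.ofReal δ) := by
        gcongr
        · exact h5
        · exact h5
    _ = ENNReal.ofReal δ := by
        rw [← two_mul, ← mul_assoc, ENNReal.inv_mul_cancel (by simp) (by simp), one_mul]

theorem no_limit : ¬ ∃ π : Measure (Fin (1+1) → ℝ), IsProbabilityMeasure π ∧
      ∀ ε > (0 : ℝ), ∃ N : ℕ, ∀ n ≥ N, ∀ A : Set (Fin (1+1) → ℝ), MeasurableSet A →
        |(mu {ω | W n ω ∈ A}).toReal - (π A).toReal| < ε := by
  rintro ⟨π, hπ, hconv⟩
  -- the countable set of phase zero values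
  set E : Set (Fin (1+1) → ℝ) := D ∩ {w | w 1 < 1} with hE
  have hEc : E.Countable := D_countable.mono inter_subset_left
  have hEm : MeasurableSet E := hEc.measurableSet
  have h1 : ∀ n, (1/2 : ℝ) ≤ (mu {ω | W n ω ∈ E}).toReal := by
    intro n
    have hsub : {ω | (T^[n] ω).2 = false} ⊆ {ω | W n ω ∈ E} := by
      intro ω hω
      obtain ⟨X, h0, h1, h2, h3, h4⟩ := inv_all ω n
      refine ⟨W_mem_D n ω, ?_⟩
      show W n ω 1 < 1
      rw [h3 hω]
      simp only [Matrix.cons_val_one, Matrix.cons_val_fin_one]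
      exact lt_of_le_of_lt h1 (g_lt_one _)
    have h2 := measure_mono (μ := mu) hsub
    rw [phase_measure] at h2
    have h3 := ENNReal.toReal_mono (measure_ne_top _ _) h2
    simpa using h3
  have hπE : (1/4 : ℝ) < (π E).toReal := by
    obtain ⟨N, hN⟩ := hconv (1/4) (by norm_num)
    have h2 := hN N le_rfl E hEm
    have h3 := h1 N
    rw [abs_lt] at h2
    linarith [h2.2]
  -- an atom
  obtain ⟨d, hdE, hdpos⟩ : ∃ d ∈ E, π {d} ≠ 0 := by
    by_contra hcon
    push Not at hcon
    have : π E = 0 := by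
      rw [← biUnion_of_singleton E]
      exact (measure_biUnion_null_iff hEc).mpr hcon
    rw [this] at hπE
    norm_num at hπE
  set p : ℝ := (π {d}).toReal with hp
  have hp0 : 0 < p := ENNReal.toReal_pos hdpos (measure_ne_top _ _)
  -- choose δ
  have hAv := tendsto_Av (p/4) (by positivity)
  have hAv' : ∀ᶠ n in atTop, mu (Av (p/4) n) < ENNReal.ofReal (p/4) := by
    apply hAv.eventually_lt_const
    simp [hp0]
  obtain ⟨N, hN⟩ := hconv (p/4) (by positivity)
  obtain ⟨n, hn1, hn2, hn3⟩ := (hAv'.and ((eventually_ge_atTop N).and (eventually_ge_atTop 1))).exists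
  have h2 := hN n hn2 {d} (measurableSet_singleton d)
  have h3 : mu {ω | W n ω ∈ ({d} : Set (Fin (1+1) → ℝ))} ≤ ENNReal.ofReal (p/2) := by
    have h4 := atom_bound d hdE.2 (p/4) (by positivity) n hn3
    refine h4.trans ?_
    calc ENNReal.ofReal (p/4) + mu (Av (p/4) n) ≤ ENNReal.ofReal (p/4) + ENNReal.ofReal (p/4) := by
          gcongr
      _ = ENNReal.ofReal (p/2) := by
          rw [← ENNReal.ofReal_add (by positivity) (by positivity)]
          congr 1; ring
  have h5 : (mu {ω | W n ω ∈ ({d} : Set (Fin (1+1) → ℝ))}).toReal ≤ p/2 := by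
    have := ENNReal.toReal_mono (by simp) h3
    rwa [ENNReal.toReal_ofReal (by positivity)] at this
  rw [abs_lt] at h2
  linarith [h2.1]

end Pool.Agent.Helper438.GG
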